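import Mathlib

set_option autoImplicit false
set_option maxHeartbeats 4000000

section
namespace Pool.Agent.Results.MP_c4b7b1_co.ClassTwoNotTypical.Alg

/-- permanent of the 3 x 3 matrix with rows a, b, c -/
noncomputable def per3 (a1 a2 a3 b1 b2 b3 c1 c2 c3 : ℝ) : ℝ :=
  a1 * (b2 * c3 + b3 * c2) + a2 * (b1 * c3 + b3 * c1) + a3 * (b1 * c2 + b2 * c1)

lemma cs3 (a1 a2 a3 v1 v2 v3 : ℝ) :
    (a1 * v1 + a2 * v2 + a3 * v3) ^ 2 ≤
      (a1 ^ 2 + a2 ^ 2 + a3 ^ 2) * (v1 ^ 2 + v2 ^ 2 + v3 ^ 2) := by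
  nlinarith [sq_nonneg (a1 * v2 - a2 * v1), sq_nonneg (a1 * v3 - a3 * v1),
    sq_nonneg (a2 * v3 - a3 * v2)]

lemma rowpair (b1 b2 b3 c1 c2 c3 : ℝ) (hb1 : 0 ≤ b1) (hb2 : 0 ≤ b2) (hb3 : 0 ≤ b3) :
    (c1 ^ 2 + c2 ^ 2 + c3 ^ 2) * ((b1 - b2) ^ 2 + (b1 - b3) ^ 2 + (b2 - b3) ^ 2) ≤
    3 * ((b1 * c1 - b2 * c2) ^ 2 + (b1 * c1 - b3 * c3) ^ 2 + (b2 * c2 - b3 * c3) ^ 2
      + ((b1 * c2 - b2 * c1) ^ 2 + (b1 * c3 - b3 * c1) ^ 2 + (b2 * c3 - b3 * c2) ^ 2)) := by
  have h1 : 0 ≤ b1 * b2 * (c1 - c2) ^ 2 := by positivity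
  have h2 : 0 ≤ b1 * b3 * (c1 - c3) ^ 2 := by positivity
  have h3 : 0 ≤ b2 * b3 * (c2 - c3) ^ 2 := by positivity
  have h4 : 0 ≤ c1 ^ 2 * (2 * b1 - b2 - b3) ^ 2 := by positivity
  have h5 : 0 ≤ c2 ^ 2 * (2 * b2 - b1 - b3) ^ 2 := by positivity
  have h6 : 0 ≤ c3 ^ 2 * (2 * b3 - b1 - b2) ^ 2 := by positivity
  nlinarith [h1, h2, h3, h4, h5, h6]

/-- the key one-sided estimate -/
lemma key1 (a1 a2 a3 b1 b2 b3 c1 c2 c3 : ℝ) (hb1 : 0 ≤ b1) (hb2 : 0 ≤ b2) (hb3 : 0 ≤ b3) :
    81 * (per3 a1 a2 a3 b1 b2 b3 c1 c2 c3) ^ 2 ≤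
      108 * (a1 ^ 2 + a2 ^ 2 + a3 ^ 2) * (b1 ^ 2 + b2 ^ 2 + b3 ^ 2) * (c1 ^ 2 + c2 ^ 2 + c3 ^ 2)
      - 9 * (a1 ^ 2 + a2 ^ 2 + a3 ^ 2) * (c1 ^ 2 + c2 ^ 2 + c3 ^ 2) *
        (3 * (b1 ^ 2 + b2 ^ 2 + b3 ^ 2) - (b1 + b2 + b3) ^ 2) := by
  have h1 := cs3 a1 a2 a3 (b2 * c3 + b3 * c2) (b1 * c3 + b3 * c1) (b1 * c2 + b2 * c1)
  have h2 := rowpair b1 b2 b3 c1 c2 c3 hb1 hb2 hb3
  have hA : 0 ≤ a1 ^ 2 + a2 ^ 2 + a3 ^ 2 := by positivity
  set X := (b1 * c1 - b2 * c2) ^ 2 + (b1 * c1 - b3 * c3) ^ 2 + (b2 * c2 - b3 * c3) ^ 2 with hX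
  set Y := (b1 * c2 - b2 * c1) ^ 2 + (b1 * c3 - b3 * c1) ^ 2 + (b2 * c3 - b3 * c2) ^ 2 with hY
  have hX0 : 0 ≤ X := by rw [hX]; positivity
  have h3 : 81 * ((b2 * c3 + b3 * c2) ^ 2 + (b1 * c3 + b3 * c1) ^ 2 + (b1 * c2 + b2 * c1) ^ 2)
      = 108 * ((b1 ^ 2 + b2 ^ 2 + b3 ^ 2) * (c1 ^ 2 + c2 ^ 2 + c3 ^ 2)) - 27 * Y - 54 * X := by
    rw [hX, hY]; ring
  have h4 : 81 * ((b2 * c3 + b3 * c2) ^ 2 + (b1 * c3 + b3 * c1) ^ 2 + (b1 * c2 + b2 * c1) ^ 2)
      ≤ 108 * ((b1 ^ 2 + b2 ^ 2 + b3 ^ 2) * (c1 ^ 2 + c2 ^ 2 + c3 ^ 2))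
        - 9 * ((c1 ^ 2 + c2 ^ 2 + c3 ^ 2) *
          ((b1 - b2) ^ 2 + (b1 - b3) ^ 2 + (b2 - b3) ^ 2)) := by
    rw [h3]; linarith
  have h5 := mul_le_mul_of_nonneg_left h4 hA
  have h6 : 81 * (per3 a1 a2 a3 b1 b2 b3 c1 c2 c3) ^ 2 ≤ (a1 ^ 2 + a2 ^ 2 + a3 ^ 2) *
      (81 * ((b2 * c3 + b3 * c2) ^ 2 + (b1 * c3 + b3 * c1) ^ 2 + (b1 * c2 + b2 * c1) ^ 2)) := by
    unfold per3; linarith
  refine h6.trans (h5.trans (le_of_eq ?_))
  ring

lemma per3_swap23 (a1 a2 a3 b1 b2 b3 c1 c2 c3 : ℝ) :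
    per3 a1 a2 a3 b1 b2 b3 c1 c2 c3 = per3 a1 a2 a3 c1 c2 c3 b1 b2 b3 := by
  unfold per3; ring

lemma per3_swap12 (a1 a2 a3 b1 b2 b3 c1 c2 c3 : ℝ) :
    per3 a1 a2 a3 b1 b2 b3 c1 c2 c3 = per3 b1 b2 b3 a1 a2 a3 c1 c2 c3 := by
  unfold per3; ring

lemma step_one (s Q x y z d : ℝ) (hs0 : 0 ≤ s) (hQ0 : 0 ≤ Q)
    (hsum : x + y + z = s)
    (hq : (x - y) ^ 2 + (y - z) ^ 2 + (z - x) ^ 2 = Q) (hd0 : 0 ≤ d) (hd1 : d ≤ 2 * s) :
    s ^ 2 * d ≤ 18 * (y * z * d) + 6 * (s * Q) := by
  have hform : 2 * (s ^ 2 - 18 * (y * z)) ≤ 6 * Q := by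
    rw [← hsum, ← hq]
    nlinarith [sq_nonneg (10 * x - 8 * (y + z)), sq_nonneg (y + z)]
  have e1 : s ^ 2 * d - 18 * (y * z * d) = (s ^ 2 - 18 * (y * z)) * d := by ring
  have h0 : 0 ≤ s * Q := mul_nonneg hs0 hQ0
  by_cases hc : s ^ 2 - 18 * (y * z) ≤ 0
  · have : (s ^ 2 - 18 * (y * z)) * d ≤ 0 := mul_nonpos_of_nonpos_of_nonneg hc hd0
    linarith
  · push Not at hc
    have h1 : (s ^ 2 - 18 * (y * z)) * d ≤ (s ^ 2 - 18 * (y * z)) * (2 * s) :=
      mul_le_mul_of_nonneg_left hd1 hc.le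
    have h2 : (2 * (s ^ 2 - 18 * (y * z))) * s ≤ (6 * Q) * s :=
      mul_le_mul_of_nonneg_right hform hs0
    have e2 : (s ^ 2 - 18 * (y * z)) * (2 * s) = (2 * (s ^ 2 - 18 * (y * z))) * s := by ring
    have e3 : (6 * Q) * s = 6 * (s * Q) := by ring
    linarith

lemma step_two_a (s Q x y u v : ℝ) (hx : 0 ≤ x) (hy : 0 ≤ y)
    (hu : 0 ≤ u) (hv : 0 ≤ v) (hxs : x ≤ s) (hys : y ≤ s) (hQ : (x - y) ^ 2 ≤ Q)
    (hxu : x ≤ u ^ 2) (hyv : y ≤ v ^ 2) (hux : u ^ 2 ≤ 3 * x) (hvy : v ^ 2 ≤ 3 * y) :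
    (x + y) * (u - v) ^ 2 ≤ 18 * Q + 4 * (s * ((3 * x - u ^ 2) + (3 * y - v ^ 2))) := by
  have e1 : (x + y) * (u - v) ^ 2 ≤ (u + v) ^ 2 * (u - v) ^ 2 := by
    apply mul_le_mul_of_nonneg_right _ (sq_nonneg _)
    nlinarith [mul_nonneg hu hv]
  have e2 : (u + v) ^ 2 * (u - v) ^ 2
      = (3 * (x - y) - ((3 * x - u ^ 2) - (3 * y - v ^ 2))) ^ 2 := by ring
  have e3 : ∀ p q : ℝ, (3 * (x - y) - (p - q)) ^ 2 ≤ 18 * (x - y) ^ 2 + 2 * (p - q) ^ 2 := by
    intro p q
    nlinarith [sq_nonneg (3 * (x - y) + (p - q))]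
  have e5 : ∀ p q : ℝ, 0 ≤ p → 0 ≤ q → p ≤ 2 * s → q ≤ 2 * s →
      (p - q) ^ 2 ≤ 2 * (s * (p + q)) := by
    intro p q hp0 hq0 hp1 hq1
    nlinarith [mul_nonneg hp0 hq0, mul_nonneg hp0 (sub_nonneg.2 hp1),
      mul_nonneg hq0 (sub_nonneg.2 hq1)]
  have e6 := e3 (3 * x - u ^ 2) (3 * y - v ^ 2)
  have e7 := e5 (3 * x - u ^ 2) (3 * y - v ^ 2) (by linarith) (by linarith) (by linarith)
    (by linarith)
  linarith

lemma step_two_b (Q x y z u v : ℝ) (hx : 0 ≤ x) (hy : 0 ≤ y) (hz : 0 ≤ z)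
    (hu : 0 ≤ u) (hv : 0 ≤ v)
    (hq : (x - y) ^ 2 + (y - z) ^ 2 + (z - x) ^ 2 = Q)
    (hux : u ^ 2 ≤ 3 * x) (hvy : v ^ 2 ≤ 3 * y) :
    z * (u - v) ^ 2 ≤ 4 * ((x + y) * (u - v) ^ 2) + Q := by
  have hQ0 : 0 ≤ Q := by rw [← hq]; positivity
  by_cases hc : z ≤ 4 * (x + y)
  · have := mul_le_mul_of_nonneg_right hc (sq_nonneg (u - v))
    linarith
  · push Not at hc
    have e1 : (u - v) ^ 2 ≤ 3 * (x + y) := by
      nlinarith [mul_nonneg hu hv]
    have e2 : z * (u - v) ^ 2 ≤ z * (3 * (x + y)) := mul_le_mul_of_nonneg_left e1 hz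
    have hz0 : 0 < z := by linarith
    have e3 : z * (4 * (x + y)) ≤ z * z := mul_le_mul_of_nonneg_left hc.le hz
    have e4 : z * (3 * (x + y)) ≤ Q := by
      rw [← hq]
      nlinarith [sq_nonneg (x - y), mul_nonneg hx hy, mul_nonneg hz hx, mul_nonneg hz hy]
    have : 0 ≤ (x + y) * (u - v) ^ 2 := by positivity
    linarith

lemma step_two (s Q x y z u v : ℝ) (hx : 0 ≤ x) (hy : 0 ≤ y) (hz : 0 ≤ z)
    (hu : 0 ≤ u) (hv : 0 ≤ v) (hsum : x + y + z = s)
    (hq : (x - y) ^ 2 + (y - z) ^ 2 + (z - x) ^ 2 = Q)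
    (hxu : x ≤ u ^ 2) (hyv : y ≤ v ^ 2) (hux : u ^ 2 ≤ 3 * x) (hvy : v ^ 2 ≤ 3 * y) :
    s ^ 2 * (u - v) ^ 2 ≤
      91 * (s * Q) + 20 * (s ^ 2 * ((3 * x - u ^ 2) + (3 * y - v ^ 2))) := by
  have hs0 : 0 ≤ s := by linarith
  have hQ1 : (x - y) ^ 2 ≤ Q := by
    rw [← hq]; nlinarith [sq_nonneg (y - z), sq_nonneg (z - x)]
  have h1 := step_two_a s Q x y u v hx hy hu hv (by linarith) (by linarith) hQ1 hxu hyv hux hvy
  have h2 := step_two_b Q x y z u v hx hy hz hu hv hq hux hvy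
  have h3 : s * (u - v) ^ 2 ≤ 5 * ((x + y) * (u - v) ^ 2) + Q := by
    have : s * (u - v) ^ 2 = (x + y) * (u - v) ^ 2 + z * (u - v) ^ 2 := by rw [← hsum]; ring
    linarith
  have h4 : s * (u - v) ^ 2 ≤ 91 * Q + 20 * (s * ((3 * x - u ^ 2) + (3 * y - v ^ 2))) := by
    linarith
  have h5 := mul_le_mul_of_nonneg_left h4 hs0
  calc s ^ 2 * (u - v) ^ 2 = s * (s * (u - v) ^ 2) := by ring
    _ ≤ _ := h5
    _ = _ := by ring

/-- abstract final step: numbers A B C (squared row norms), al be ga (row sums) -/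
lemma final_step (A B C al be ga P : ℝ) (hA : 0 ≤ A) (hB : 0 ≤ B) (hC : 0 ≤ C)
    (hal : 0 ≤ al) (hbe : 0 ≤ be) (hga : 0 ≤ ga)
    (hal1 : A ≤ al ^ 2) (hbe1 : B ≤ be ^ 2) (hga1 : C ≤ ga ^ 2)
    (hal2 : al ^ 2 ≤ 3 * A) (hbe2 : be ^ 2 ≤ 3 * B) (hga2 : ga ^ 2 ≤ 3 * C)
    (k1 : 81 * P ≤ 108 * A * B * C - 9 * A * C * (3 * B - be ^ 2))
    (k2 : 81 * P ≤ 108 * A * B * C - 9 * A * B * (3 * C - ga ^ 2))
    (k3 : 81 * P ≤ 108 * A * B * C - 9 * B * C * (3 * A - al ^ 2)) :
    531 * (81 * P) ≤ 531 * 4 * (A + B + C) ^ 3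
      - (A + B + C) ^ 2 * (9 * (A + B + C) - (al + be + ga) ^ 2) := by
  set s := A + B + C with hs
  have hs0 : 0 ≤ s := by positivity
  set Q := (A - B) ^ 2 + (B - C) ^ 2 + (C - A) ^ 2 with hQ
  have hQ0 : 0 ≤ Q := by positivity
  set da := 3 * A - al ^ 2 with hda
  set db := 3 * B - be ^ 2 with hdb
  set dc := 3 * C - ga ^ 2 with hdc
  have hda0 : 0 ≤ da := by linarith
  have hdb0 : 0 ≤ db := by linarith
  have hdc0 : 0 ≤ dc := by linarith
  have hda1 : da ≤ 2 * s := by linarith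
  have hdb1 : db ≤ 2 * s := by linarith
  have hdc1 : dc ≤ 2 * s := by linarith
  set D := 4 * s ^ 3 - 81 * P with hD
  -- AM-GM with remainder
  have amgm : 2 * s * Q ≤ 4 * s ^ 3 - 108 * A * B * C := by
    have e1 : 0 ≤ A * (B - C) ^ 2 := by positivity
    have e2 : 0 ≤ B * (C - A) ^ 2 := by positivity
    have e3 : 0 ≤ C * (A - B) ^ 2 := by positivity
    have : 4 * s ^ 3 - 108 * A * B * C - 2 * s * Q
        = 12 * (A * (B - C) ^ 2 + B * (C - A) ^ 2 + C * (A - B) ^ 2) := by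
      rw [hs, hQ]; ring
    linarith
  have hD1 : 2 * s * Q + 3 * (A * C * db + A * B * dc + B * C * da) ≤ D := by
    rw [hD]; linarith
  have s1a := step_one s Q A B C da hs0 hQ0 (by rw [hs]) (by rw [hQ]) hda0 hda1
  have s1b := step_one s Q B C A db hs0 hQ0 (by rw [hs]; ring) (by rw [hQ]; ring) hdb0 hdb1
  have s1c := step_one s Q C A B dc hs0 hQ0 (by rw [hs]; ring) (by rw [hQ]; ring) hdc0 hdc1
  have hpos : 0 ≤ A * C * db + A * B * dc + B * C * da := by positivity
  have hS1 : s ^ 2 * (da + db + dc) ≤ 9 * D := by linarith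
  have hSQ : s * Q ≤ D / 2 := by
    have : 0 ≤ A * C * db + A * B * dc + B * C * da := by positivity
    linarith
  have s2a := step_two s Q A B C al be hA hB hC hal hbe (by rw [hs]) (by rw [hQ]) hal1 hbe1 hal2 hbe2
  have s2b := step_two s Q B C A be ga hB hC hA hbe hga (by rw [hs]; ring) (by rw [hQ]; ring)
    hbe1 hga1 hbe2 hga2
  have s2c := step_two s Q C A B ga al hC hA hB hga hal (by rw [hs]; ring) (by rw [hQ]; ring)
    hga1 hal1 hga2 hal2
  have hS2 : s ^ 2 * ((al - be) ^ 2 + (be - ga) ^ 2 + (ga - al) ^ 2) ≤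
      273 * (s * Q) + 40 * (s ^ 2 * (da + db + dc)) := by
    rw [hda, hdb, hdc]; linarith
  have hS3 : s ^ 2 * (9 * s - (al + be + ga) ^ 2)
      = 3 * (s ^ 2 * (da + db + dc))
        + s ^ 2 * ((al - be) ^ 2 + (be - ga) ^ 2 + (ga - al) ^ 2) := by
    rw [hda, hdb, hdc, hs]; ring
  have hsQ0 : 0 ≤ s * Q := mul_nonneg hs0 hQ0
  have hS4 : s ^ 2 * (9 * s - (al + be + ga) ^ 2) ≤ 531 * D := by
    rw [hS3]; linarith
  rw [hD] at hS4
  linarith

/-- quantitative maximality of the constant matrix for the permanent on a sphere -/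
theorem per3_sq_le (a1 a2 a3 b1 b2 b3 c1 c2 c3 : ℝ)
    (ha1 : 0 ≤ a1) (ha2 : 0 ≤ a2) (ha3 : 0 ≤ a3)
    (hb1 : 0 ≤ b1) (hb2 : 0 ≤ b2) (hb3 : 0 ≤ b3)
    (hc1 : 0 ≤ c1) (hc2 : 0 ≤ c2) (hc3 : 0 ≤ c3) (s S : ℝ)
    (hs : s = (a1 ^ 2 + a2 ^ 2 + a3 ^ 2) + (b1 ^ 2 + b2 ^ 2 + b3 ^ 2) + (c1 ^ 2 + c2 ^ 2 + c3 ^ 2))
    (hS : S = (a1 + a2 + a3) + (b1 + b2 + b3) + (c1 + c2 + c3)) :
    531 * (81 * (per3 a1 a2 a3 b1 b2 b3 c1 c2 c3) ^ 2) ≤
      531 * 4 * s ^ 3 - s ^ 2 * (9 * s - S ^ 2) := by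
  rw [hs, hS]
  have sq1 : ∀ x y z : ℝ, 0 ≤ x → 0 ≤ y → 0 ≤ z → x ^ 2 + y ^ 2 + z ^ 2 ≤ (x + y + z) ^ 2 := by
    intro x y z hx hy hz
    nlinarith [mul_nonneg hx hy, mul_nonneg hx hz, mul_nonneg hy hz]
  have sq2 : ∀ x y z : ℝ, (x + y + z) ^ 2 ≤ 3 * (x ^ 2 + y ^ 2 + z ^ 2) := by
    intro x y z
    nlinarith [sq_nonneg (x - y), sq_nonneg (x - z), sq_nonneg (y - z)]
  apply final_step _ _ _ _ _ _ _ (by positivity) (by positivity) (by positivity)
    (by positivity) (by positivity) (by positivity)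
    (sq1 _ _ _ ha1 ha2 ha3) (sq1 _ _ _ hb1 hb2 hb3) (sq1 _ _ _ hc1 hc2 hc3)
    (sq2 _ _ _) (sq2 _ _ _) (sq2 _ _ _)
  · exact key1 a1 a2 a3 b1 b2 b3 c1 c2 c3 hb1 hb2 hb3
  · have := key1 a1 a2 a3 c1 c2 c3 b1 b2 b3 hc1 hc2 hc3
    rw [per3_swap23] 
    linarith
  · have := key1 b1 b2 b3 a1 a2 a3 c1 c2 c3 ha1 ha2 ha3
    rw [per3_swap12]
    linarith

end Pool.Agent.Results.MP_c4b7b1_co.ClassTwoNotTypical.Alg
end

section
open MeasureTheory ProbabilityTheory Real

namespace Pool.Agent.Results.MP_c4b7b1_co.ClassTwoNotTypical.Gauss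

/-- the standard Gaussian measure -/
noncomputable abbrev gam : Measure ℝ := gaussianReal 0 1

/-- moments of the standard Gaussian -/
noncomputable def m (k : ℕ) : ℝ := ∫ x, x ^ k ∂gam

lemma integrable_pow (k : ℕ) : Integrable (fun x : ℝ => x ^ k) gam := by
  have h : (0 : ℝ) ∈ interior (integrableExpSet id gam) := by
    rw [integrableExpSet_id_gaussianReal]; simp
  simpa using integrable_pow_of_mem_interior_integrableExpSet h k

lemma integral_gam (f : ℝ → ℝ) :
    ∫ x, f x ∂gam = (√(2 * π))⁻¹ * ∫ x, rexp (-x ^ 2 / 2) * f x := by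
  rw [integral_gaussianReal_eq_integral_smul (by norm_num)]
  rw [← integral_const_mul]
  congr 1
  ext x
  simp [gaussianPDFReal, smul_eq_mul]
  ring

lemma integrable_pow_exp (k : ℕ) : Integrable (fun x : ℝ => x ^ k * rexp (-x ^ 2 / 2)) := by
  have h := integrable_rpow_mul_exp_neg_mul_sq (b := 1 / 2) (by norm_num) (s := k)
    (by have : (0:ℝ) ≤ k := Nat.cast_nonneg k; linarith)
  refine h.congr ?_
  filter_upwards with x
  rw [Real.rpow_natCast]
  congr 2; ring

lemma m_zero : m 0 = 1 := by simp [m]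

lemma m_one : m 1 = 0 := by
  have := integral_id_gaussianReal (μ := 0) (v := 1)
  simpa [m] using this

lemma m_rec (k : ℕ) : m (k + 2) = (k + 1) * m k := by
  unfold m
  rw [integral_gam, integral_gam]
  have key : ∫ x : ℝ, x ^ (k + 1) * (x * rexp (-x ^ 2 / 2))
      = ∫ x : ℝ, ((k + 1 : ℕ) * x ^ k) * rexp (-x ^ 2 / 2) := by
    have h := integral_mul_deriv_eq_deriv_mul_of_integrable
      (u := fun x : ℝ => x ^ (k + 1)) (v := fun x : ℝ => -rexp (-x ^ 2 / 2))
      (u' := fun x => ((k + 1 : ℕ) : ℝ) * x ^ k) (v' := fun x => x * rexp (-x ^ 2 / 2))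
      (fun x _ => by simpa using hasDerivAt_pow (k + 1) x)
      (fun x _ => by
        have h1 : HasDerivAt (fun x : ℝ => -x ^ 2 / 2) (-x) x := by
          have := ((hasDerivAt_pow 2 x).fun_neg).div_const 2
          exact this.congr_deriv (by norm_num; ring)
        have h2 := (h1.exp).fun_neg
        exact h2.congr_deriv (by ring))
      ?_ ?_ ?_
    · rw [h, ← integral_neg]
      congr 1; ext x; simp
    · have := integrable_pow_exp (k + 2)
      refine this.congr ?_
      filter_upwards with x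
      simp only [Pi.mul_apply]
      ring
    · have := (integrable_pow_exp k).const_mul (-((k + 1 : ℕ) : ℝ))
      refine this.congr ?_
      filter_upwards with x
      simp only [Pi.mul_apply]
      ring
    · have := (integrable_pow_exp (k + 1)).neg
      refine this.congr ?_
      filter_upwards with x
      simp only [Pi.mul_apply, Pi.neg_apply]
      ring
  have e1 : ∫ x : ℝ, rexp (-x ^ 2 / 2) * x ^ (k + 2)
      = ∫ x : ℝ, x ^ (k + 1) * (x * rexp (-x ^ 2 / 2)) := by
    congr 1; ext x; ring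
  have e2 : ∫ x : ℝ, ((k + 1 : ℕ) * x ^ k) * rexp (-x ^ 2 / 2)
      = (k + 1) * ∫ x : ℝ, rexp (-x ^ 2 / 2) * x ^ k := by
    rw [← integral_const_mul]
    congr 1; ext x; push_cast; ring
  rw [e1, key, e2]
  ring

lemma m_nonneg : ∀ k, 0 ≤ m k
  | 0 => by rw [m_zero]; norm_num
  | 1 => by rw [m_one]
  | (k + 2) => by rw [m_rec]; exact mul_nonneg (by positivity) (m_nonneg k)

/-- product measure and mixed moments -/
lemma integral_prod_pow {C : Type*} [Fintype C] (k : C → ℕ) :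
    ∫ z : C → ℝ, ∏ c, z c ^ k c ∂(Measure.pi fun _ : C => gam) = ∏ c, m (k c) := by
  exact integral_fintype_prod_eq_prod (𝕜 := ℝ) (fun (c : C) (x : ℝ) => x ^ k c)

lemma integrable_prod_pow {C : Type*} [Fintype C] (k : C → ℕ) :
    Integrable (fun z : C → ℝ => ∏ c, z c ^ k c) (Measure.pi fun _ : C => gam) :=
  Integrable.fintype_prod (f := fun (c : C) (x : ℝ) => x ^ k c) (fun c => integrable_pow (k c))

end Pool.Agent.Results.MP_c4b7b1_co.ClassTwoNotTypical.Gauss
end

section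
open MeasureTheory ProbabilityTheory Real

namespace Pool.Agent.Results.MP_c4b7b1_co.ClassTwoNotTypical.Gauss

lemma integrable_gauss_shift (b a : ℝ) (hb : 0 < b) :
    Integrable (fun z : ℝ => rexp (-b * (z - a) ^ 2)) :=
  (integrable_exp_neg_mul_sq hb).comp_sub_right a

lemma integral_gauss_shift (b a : ℝ) :
    ∫ z : ℝ, rexp (-b * (z - a) ^ 2) = √(π / b) := by
  rw [integral_sub_right_eq_self (fun z : ℝ => rexp (-b * z ^ 2)) a]
  exact integral_gaussian b

lemma abs_gauss_le (b a z : ℝ) (_hb : 0 < b) :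
    rexp (-b * (|z| - a) ^ 2) ≤ rexp (-b * (z - a) ^ 2) + rexp (-b * (z - (-a)) ^ 2) := by
  rcases abs_choice z with h | h
  · rw [h]; linarith [exp_pos (-b * (z - (-a)) ^ 2)]
  · rw [h]
    have : (-z - a) ^ 2 = (z - (-a)) ^ 2 := by ring
    rw [this]; linarith [exp_pos (-b * (z - a) ^ 2)]

/-- domination of the one-dimensional integrand -/
lemma lin_gauss_le (b l a z : ℝ) (hb : 0 < b) :
    rexp (l * |z| - b * (|z| - a) ^ 2) ≤
      rexp (l * a + l ^ 2 / (2 * b)) *
        (rexp (-(b / 2) * (z - a) ^ 2) + rexp (-(b / 2) * (z - (-a)) ^ 2)) := by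
  have h1 : l * |z| - b * (|z| - a) ^ 2 ≤
      (l * a + l ^ 2 / (2 * b)) + (-(b / 2) * (|z| - a) ^ 2) := by
    have h2 : 0 ≤ (b * (|z| - a) - l) ^ 2 / (2 * b) := by positivity
    have h3 : (b * (|z| - a) - l) ^ 2 / (2 * b)
        = b / 2 * (|z| - a) ^ 2 - l * (|z| - a) + l ^ 2 / (2 * b) := by
      field_simp; ring
    rw [h3] at h2
    linarith
  calc rexp (l * |z| - b * (|z| - a) ^ 2)
      ≤ rexp ((l * a + l ^ 2 / (2 * b)) + (-(b / 2) * (|z| - a) ^ 2)) := exp_le_exp.2 h1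
    _ = rexp (l * a + l ^ 2 / (2 * b)) * rexp (-(b / 2) * (|z| - a) ^ 2) := exp_add _ _
    _ ≤ _ := mul_le_mul_of_nonneg_left (abs_gauss_le _ _ _ (by positivity)) (exp_pos _).le

lemma integrable_dom (b l a : ℝ) (hb : 0 < b) :
    Integrable (fun z : ℝ => rexp (l * a + l ^ 2 / (2 * b)) *
        (rexp (-(b / 2) * (z - a) ^ 2) + rexp (-(b / 2) * (z - (-a)) ^ 2))) :=
  ((integrable_gauss_shift _ _ (by positivity)).add
    (integrable_gauss_shift _ _ (by positivity))).const_mul _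

lemma integrable_lin_gauss (b l a : ℝ) (hb : 0 < b) :
    Integrable (fun z : ℝ => rexp (l * |z| - b * (|z| - a) ^ 2)) := by
  refine (integrable_dom b l a hb).mono' ?_ ?_
  · exact (by fun_prop : Continuous (fun z : ℝ => rexp (l * |z| - b * (|z| - a) ^ 2))).aestronglyMeasurable
  · filter_upwards with z
    rw [Real.norm_of_nonneg (exp_pos _).le]
    exact lin_gauss_le b l a z hb

lemma integral_lin_gauss_le (b l a : ℝ) (hb : 0 < b) :
    ∫ z : ℝ, rexp (l * |z| - b * (|z| - a) ^ 2) ≤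
      (2 * √(π / (b / 2)) * rexp (l ^ 2 / (2 * b))) * rexp (l * a) := by
  have h := integral_mono (integrable_lin_gauss b l a hb) (integrable_dom b l a hb)
    (fun z => lin_gauss_le b l a z hb)
  refine h.trans (le_of_eq ?_)
  rw [integral_const_mul, integral_add (integrable_gauss_shift _ _ (by positivity))
    (integrable_gauss_shift _ _ (by positivity)), integral_gauss_shift, integral_gauss_shift,
    exp_add]
  ring

/-- tangent bound -/
lemma pow_le_tangent (t t0 : ℝ) (N : ℕ) (ht : 0 ≤ t) (ht0 : 0 < t0) (hN : t0 ^ 2 = N) :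
    t ^ N ≤ t0 ^ N * rexp (t * t0 - t0 ^ 2) := by
  have h1 : t ≤ t0 * rexp (t / t0 - 1) := by
    have := add_one_le_exp (t / t0 - 1)
    have h2 : t / t0 ≤ rexp (t / t0 - 1) := by linarith
    rw [div_le_iff₀ ht0] at h2
    linarith
  calc t ^ N ≤ (t0 * rexp (t / t0 - 1)) ^ N := pow_le_pow_left₀ ht h1 N
    _ = t0 ^ N * rexp (N * (t / t0 - 1)) := by rw [mul_pow, ← Real.exp_nat_mul]
    _ = t0 ^ N * rexp (t * t0 - t0 ^ 2) := by
        congr 2; rw [← hN]; field_simp

/-- vertex polynomial for graphs of maximum degree at most three, weight `l` per missing edge -/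
noncomputable def P3 (l z : ℝ) : ℝ := l ^ 3 + l ^ 2 * z + l * z ^ 2 / 2 + z ^ 3 / 6

lemma abs_P3_le (l z : ℝ) (hl : 0 < l) :
    |P3 l z| ≤ (√((|z| + l) ^ 2 + 4 * l ^ 2)) ^ 3 / 6 := by
  set t := √((|z| + l) ^ 2 + 4 * l ^ 2) with ht
  have ht2 : t ^ 2 = (|z| + l) ^ 2 + 4 * l ^ 2 := Real.sq_sqrt (by positivity)
  have ht0 : 0 ≤ t := Real.sqrt_nonneg _
  have h1 : |P3 l z| ≤ l ^ 3 + l ^ 2 * |z| + l * |z| ^ 2 / 2 + |z| ^ 3 / 6 := by
    unfold P3
    refine (abs_add_le _ _).trans ?_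
    refine add_le_add ((abs_add_le _ _).trans (add_le_add ((abs_add_le _ _).trans
      (add_le_add ?_ ?_)) ?_)) ?_
    · rw [abs_of_pos (by positivity)]
    · rw [abs_mul, abs_of_pos (by positivity : (0:ℝ) < l ^ 2)]
    · rw [abs_div, abs_mul, abs_of_pos hl, abs_pow, abs_of_pos (by norm_num : (0:ℝ) < 2)]
    · rw [abs_div, abs_pow, abs_of_pos (by norm_num : (0:ℝ) < 6)]
  have hz : 0 ≤ |z| := abs_nonneg z
  set w := |z| + l with hw
  have hw0 : 0 ≤ w := by positivity
  have h2 : l ^ 3 + l ^ 2 * |z| + l * |z| ^ 2 / 2 + |z| ^ 3 / 6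
      = (w ^ 3 + 3 * l ^ 2 * w + 2 * l ^ 3) / 6 := by
    rw [hw]; ring
  have h3 : w ^ 3 + 3 * l ^ 2 * w + 2 * l ^ 3 ≤ t ^ 3 := by
    have h4 : (w ^ 3 + 3 * l ^ 2 * w + 2 * l ^ 3) ^ 2 ≤ (t ^ 3) ^ 2 := by
      have : (t ^ 3) ^ 2 = (w ^ 2 + 4 * l ^ 2) ^ 3 := by rw [← ht2]; ring
      rw [this]
      have e1 : 0 ≤ l ^ 2 * w ^ 2 * (w - l) ^ 2 := by positivity
      have e2 : 0 ≤ l ^ 4 * (w - l) ^ 2 := by positivity
      have e3 : 0 ≤ l ^ 2 * w ^ 4 := by positivity
      have e4 : 0 ≤ l ^ 4 * w ^ 2 := by positivity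
      have e5 : 0 ≤ l ^ 6 := by positivity
      nlinarith [e1, e2, e3, e4, e5]
    exact le_of_sq_le_sq h4 (by positivity)
  rw [h2] at h1
  linarith

/-- (A) : upper bound for the one-dimensional Gaussian integral -/
theorem upper_one (l : ℝ) (hl : 0 < l) : ∃ K : ℝ, 0 < K ∧ ∀ n : ℕ, 0 < n →
    ∫ z, (P3 l z) ^ n ∂gam ≤
      K * (((√(3 * n)) ^ 3 / 6) ^ n * rexp (-(3 * n) / 2) * rexp (l * √(3 * n))) := by
  refine ⟨(√(2 * π))⁻¹ * (rexp (7 * l ^ 2) *
    (2 * √(π / ((1/4) / 2)) * rexp (l ^ 2 / (2 * (1/4))))), by positivity, ?_⟩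
  intro n hn
  set t0 := √(3 * n) with ht0
  have hn' : (0:ℝ) < n := by exact_mod_cast hn
  have ht0pos : 0 < t0 := Real.sqrt_pos.2 (by positivity)
  have ht0sq : t0 ^ 2 = 3 * n := Real.sq_sqrt (by positivity)
  -- pointwise bound
  have hpt : ∀ z : ℝ, |P3 l z| ^ n * rexp (-z ^ 2 / 2) ≤
      ((t0 ^ 3 / 6) ^ n * rexp (-(3 * n) / 2) * rexp (7 * l ^ 2)) *
        rexp (l * |z| - (1/4) * (|z| - t0) ^ 2) := by
    intro z
    set t := √((|z| + l) ^ 2 + 4 * l ^ 2) with ht
    have ht2 : t ^ 2 = (|z| + l) ^ 2 + 4 * l ^ 2 := Real.sq_sqrt (by positivity)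
    have htn : 0 ≤ t := Real.sqrt_nonneg _
    have hz : 0 ≤ |z| := abs_nonneg z
    have hz2 : |z| ^ 2 = z ^ 2 := sq_abs z
    have h1 : |P3 l z| ^ n ≤ (t ^ 3 / 6) ^ n := pow_le_pow_left₀ (abs_nonneg _) (abs_P3_le l z hl) n
    have h2 : t ^ (3 * n) ≤ t0 ^ (3 * n) * rexp (t * t0 - t0 ^ 2) :=
      pow_le_tangent t t0 (3 * n) htn ht0pos (by rw [ht0sq]; push_cast; ring)
    have h3 : (t ^ 3 / 6) ^ n ≤ (t0 ^ 3 / 6) ^ n * rexp (t * t0 - t0 ^ 2) := by
      rw [div_pow, div_pow, ← pow_mul, ← pow_mul, div_mul_eq_mul_div]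
      exact div_le_div_of_nonneg_right h2 (by positivity)
    -- t <= |z| + 3 l and t >= |z|
    have ht3 : t ≤ |z| + 3 * l := by
      apply le_of_sq_le_sq _ (by positivity)
      rw [ht2]; nlinarith [mul_nonneg hz hl.le]
    have ht4 : |z| ≤ t := by
      apply le_of_sq_le_sq _ htn
      rw [ht2]; nlinarith [mul_nonneg hz hl.le, sq_nonneg l]
    have h5 : (t - |z|) ^ 2 ≤ 9 * l ^ 2 := by nlinarith
    have hexp : t * t0 - t0 ^ 2 + (-z ^ 2 / 2) ≤
        -(3 * n) / 2 + 7 * l ^ 2 + (l * |z| - (1/4) * (|z| - t0) ^ 2) := by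
      have e1 : t * t0 - t0 ^ 2 = -(t0 ^ 2) / 2 + t ^ 2 / 2 - (t - t0) ^ 2 / 2 := by ring
      have e2 : (|z| - t0) ^ 2 / 2 - (t - |z|) ^ 2 ≤ (t - t0) ^ 2 := by
        nlinarith [sq_nonneg ((|z| - t0) + 2 * (t - |z|))]
      rw [e1, ht2, ht0sq, ← hz2]
      nlinarith
    calc |P3 l z| ^ n * rexp (-z ^ 2 / 2)
        ≤ ((t0 ^ 3 / 6) ^ n * rexp (t * t0 - t0 ^ 2)) * rexp (-z ^ 2 / 2) :=
          mul_le_mul_of_nonneg_right (h1.trans h3) (exp_pos _).le
      _ = (t0 ^ 3 / 6) ^ n * rexp (t * t0 - t0 ^ 2 + (-z ^ 2 / 2)) := by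
          rw [mul_assoc, ← exp_add]
      _ ≤ (t0 ^ 3 / 6) ^ n *
          rexp (-(3 * n) / 2 + 7 * l ^ 2 + (l * |z| - (1/4) * (|z| - t0) ^ 2)) :=
          mul_le_mul_of_nonneg_left (exp_le_exp.2 hexp) (by positivity)
      _ = _ := by rw [exp_add, exp_add]; ring
  have h1 : ∫ z, (P3 l z) ^ n ∂gam ≤ (√(2 * π))⁻¹ * ∫ z, rexp (-z ^ 2 / 2) * |P3 l z| ^ n := by
    rw [← integral_gam]
    refine (le_abs_self _).trans ((abs_integral_le_integral_abs).trans (le_of_eq ?_))
    congr 1; ext z; rw [abs_pow]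
  refine h1.trans ?_
  have h2 : ∫ z, rexp (-z ^ 2 / 2) * |P3 l z| ^ n ≤
      ∫ z, ((t0 ^ 3 / 6) ^ n * rexp (-(3 * n) / 2) * rexp (7 * l ^ 2)) *
        rexp (l * |z| - (1/4) * (|z| - t0) ^ 2) := by
    apply integral_mono_of_nonneg
    · filter_upwards with z
      positivity
    · exact (integrable_lin_gauss (1/4) l t0 (by norm_num)).const_mul _
    · filter_upwards with z
      rw [mul_comm]; exact hpt z
  rw [integral_const_mul] at h2
  have h3 := integral_lin_gauss_le (1/4) l t0 (by norm_num)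
  have h4 : ∫ z, rexp (-z ^ 2 / 2) * |P3 l z| ^ n ≤
      ((t0 ^ 3 / 6) ^ n * rexp (-(3 * n) / 2) * rexp (7 * l ^ 2)) *
        ((2 * √(π / ((1/4) / 2)) * rexp (l ^ 2 / (2 * (1/4)))) * rexp (l * t0)) :=
    h2.trans (mul_le_mul_of_nonneg_left h3 (by positivity))
  calc (√(2 * π))⁻¹ * ∫ z, rexp (-z ^ 2 / 2) * |P3 l z| ^ n
      ≤ (√(2 * π))⁻¹ * (((t0 ^ 3 / 6) ^ n * rexp (-(3 * n) / 2) * rexp (7 * l ^ 2)) *
        ((2 * √(π / ((1/4) / 2)) * rexp (l ^ 2 / (2 * (1/4)))) * rexp (l * t0))) :=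
        mul_le_mul_of_nonneg_left h4 (by positivity)
    _ = _ := by ring

end Pool.Agent.Results.MP_c4b7b1_co.ClassTwoNotTypical.Gauss
end

section
open MeasureTheory ProbabilityTheory Real

namespace Pool.Agent.Results.MP_c4b7b1_co.ClassTwoNotTypical.Gauss

open Pool.Agent.Results.MP_c4b7b1_co.ClassTwoNotTypical.Alg

/-- scalar inequality behind the second moment bound -/
lemma scal (t t0 y : ℝ) (ht : 0 ≤ t) (ht0 : 0 ≤ t0) (hy0 : 0 ≤ y) (hy1 : y ≤ 1) :
    (1/6000) * ((t - t0) ^ 2 + 2 * (t * t0 * y)) ≤ (t - t0) ^ 2 / 2 + t0 ^ 2 * y / 1416 := by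
  have h1 : 0 ≤ t * t0 * y := by positivity
  by_cases hc : t ≤ 2 * t0
  · have h2 : t * t0 * y ≤ 2 * (t0 ^ 2 * y) := by
      have := mul_le_mul_of_nonneg_right hc (mul_nonneg ht0 hy0)
      nlinarith
    nlinarith [sq_nonneg (t - t0)]
  · push Not at hc
    have h2 : t * t0 * y ≤ t * t0 := by
      have := mul_le_mul_of_nonneg_left hy1 (mul_nonneg ht ht0)
      linarith
    have h3 : t * t0 ≤ 2 * (t - t0) ^ 2 := by nlinarith
    have h4 : 0 ≤ t0 ^ 2 * y := by positivity
    nlinarith [sq_nonneg (t - t0)]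

/-- pointwise bound for powers of the permanent -/
theorem per3_pow_le (n : ℕ) (hn : 0 < n) (z0 : ℝ) (hz0 : 0 < z0) (hz0n : 3 * z0 ^ 2 = n)
    (a1 a2 a3 b1 b2 b3 c1 c2 c3 : ℝ)
    (ha1 : 0 ≤ a1) (ha2 : 0 ≤ a2) (ha3 : 0 ≤ a3)
    (hb1 : 0 ≤ b1) (hb2 : 0 ≤ b2) (hb3 : 0 ≤ b3)
    (hc1 : 0 ≤ c1) (hc2 : 0 ≤ c2) (hc3 : 0 ≤ c3) (s S : ℝ)
    (hs : s = (a1 ^ 2 + a2 ^ 2 + a3 ^ 2) + (b1 ^ 2 + b2 ^ 2 + b3 ^ 2) + (c1 ^ 2 + c2 ^ 2 + c3 ^ 2))
    (hS : S = (a1 + a2 + a3) + (b1 + b2 + b3) + (c1 + c2 + c3)) :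
    (per3 a1 a2 a3 b1 b2 b3 c1 c2 c3) ^ n ≤
      (6 * z0 ^ 3) ^ n * rexp (-(3 * n) / 2) *
        rexp (s / 2 - (1/6000) * (s - 2 * z0 * S + 9 * z0 ^ 2)) := by
  have hper0 : 0 ≤ per3 a1 a2 a3 b1 b2 b3 c1 c2 c3 := by unfold per3; positivity
  set P := per3 a1 a2 a3 b1 b2 b3 c1 c2 c3 with hP
  have hmain := per3_sq_le a1 a2 a3 b1 b2 b3 c1 c2 c3 ha1 ha2 ha3 hb1 hb2 hb3 hc1 hc2 hc3 s S hs hS
  rw [← hP] at hmain
  have hs0 : 0 ≤ s := by rw [hs]; positivity
  have hS0 : 0 ≤ S := by rw [hS]; positivity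
  rcases eq_or_lt_of_le hs0 with hs00 | hspos
  · -- s = 0
    have : P ^ 2 ≤ 0 := by
      rw [← hs00] at hmain
      nlinarith
    have hP0 : P = 0 := by nlinarith [sq_nonneg P, pow_eq_zero_iff (n := 2) (a := P) (by norm_num)]
    rw [hP0, zero_pow (by omega)]
    positivity
  set t := √s with ht
  have htpos : 0 < t := Real.sqrt_pos.2 hspos
  have ht2 : t ^ 2 = s := Real.sq_sqrt hs0
  set y := 1 - S / (3 * t) with hy
  have hSle : S ^ 2 ≤ 9 * s := by
    have h0 : 0 ≤ 81 * P ^ 2 := by positivity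
    have sq2 : (a1 + a2 + a3 + (b1 + b2 + b3) + (c1 + c2 + c3)) ^ 2 ≤
        9 * ((a1 ^ 2 + a2 ^ 2 + a3 ^ 2) + (b1 ^ 2 + b2 ^ 2 + b3 ^ 2) +
          (c1 ^ 2 + c2 ^ 2 + c3 ^ 2)) := by
      have := sq_sum_le_card_mul_sum_sq (s := (Finset.univ : Finset (Fin 9)))
        (f := ![a1, a2, a3, b1, b2, b3, c1, c2, c3])
      simp [Fin.sum_univ_succ] at this
      linarith
    rw [hs, hS]; exact sq2
  have hSt : S ≤ 3 * t := by
    apply le_of_sq_le_sq _ (by positivity)
    rw [mul_pow, ht2]; linarith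
  have hy0 : 0 ≤ y := by
    rw [hy, sub_nonneg, div_le_one (by positivity)]; exact hSt
  have hy1 : y ≤ 1 := by
    rw [hy]; have : 0 ≤ S / (3 * t) := by positivity
    linarith
  have hSy : S = 3 * t * (1 - y) := by rw [hy]; field_simp; ring
  -- P <= (2/9) t^3 exp (-y/472)
  have hP1 : P ≤ 2 / 9 * t ^ 3 * rexp (-(y / 472)) := by
    apply le_of_sq_le_sq _ (by positivity)
    have e1 : (2 / 9 * t ^ 3 * rexp (-(y / 472))) ^ 2 = 4 / 81 * t ^ 6 * rexp (-(y / 236)) := by
      rw [mul_pow, mul_pow, ← Real.exp_nat_mul]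
      have : (2:ℕ) * (-(y / 472)) = -(y / 236) := by push_cast; ring
      rw [this]; ring
    rw [e1]
    have e2 : 1 - y / 236 ≤ rexp (-(y / 236)) := by
      have := add_one_le_exp (-(y / 236)); linarith
    have e3 : 4 / 81 * t ^ 6 * (1 - y / 236) ≤ 4 / 81 * t ^ 6 * rexp (-(y / 236)) :=
      mul_le_mul_of_nonneg_left e2 (by positivity)
    refine le_trans ?_ e3
    have e4 : s = t ^ 2 := ht2.symm
    rw [e4, hSy] at hmain
    have e5 : 0 ≤ t ^ 6 * (y * (1 - y)) := by
      apply mul_nonneg (by positivity) (mul_nonneg hy0 (by linarith))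
    nlinarith [hmain, e5]
  set t0 := 3 * z0 with ht0
  have ht0pos : 0 < t0 := by positivity
  have ht0sq : t0 ^ 2 = ((3 * n : ℕ) : ℝ) := by rw [ht0]; push_cast; rw [← hz0n]; ring
  have ht0sq' : t0 ^ 2 = 3 * n := by rw [ht0sq]; push_cast; ring
  have hpow : t ^ (3 * n) ≤ t0 ^ (3 * n) * rexp (t * t0 - t0 ^ 2) :=
    pow_le_tangent t t0 (3 * n) htpos.le ht0pos ht0sq
  have hPn : P ^ n ≤ (2 / 9 * t0 ^ 3) ^ n * rexp (t * t0 - t0 ^ 2) * rexp (-(n * (y / 472))) := by
    calc P ^ n ≤ (2 / 9 * t ^ 3 * rexp (-(y / 472))) ^ n := pow_le_pow_left₀ hper0 hP1 n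
      _ = (2 / 9) ^ n * t ^ (3 * n) * rexp (-(n * (y / 472))) := by
          rw [mul_pow, mul_pow, ← pow_mul, ← Real.exp_nat_mul]; congr 2; ring
      _ ≤ (2 / 9) ^ n * (t0 ^ (3 * n) * rexp (t * t0 - t0 ^ 2)) * rexp (-(n * (y / 472))) := by
          gcongr
      _ = _ := by rw [mul_pow (2/9 : ℝ) (t0 ^ 3) n, ← pow_mul]; ring
  have h6 : 2 / 9 * t0 ^ 3 = 6 * z0 ^ 3 := by rw [ht0]; ring
  rw [h6] at hPn
  refine hPn.trans ?_
  rw [mul_assoc, mul_assoc, ← exp_add, ← exp_add]
  apply mul_le_mul_of_nonneg_left _ (by positivity)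
  apply exp_le_exp.2
  have hsc := scal t t0 y htpos.le ht0pos.le hy0 hy1
  have e1 : s - 2 * z0 * S + 9 * z0 ^ 2 = (t - t0) ^ 2 + 2 * (t * t0 * y) := by
    rw [hSy, ← ht2, ht0]; ring
  rw [e1]
  have e2 : (n:ℝ) * (y / 472) = t0 ^ 2 * y / 1416 := by rw [ht0sq']; ring
  rw [e2]
  have e3 : -(3 * (n:ℝ)) / 2 = -(t0 ^ 2) / 2 := by rw [ht0sq']
  rw [e3, ← ht2]
  nlinarith

/-- the second moment polynomial -/
noncomputable def Q9 (μ : ℝ) (z : Fin 3 × Fin 3 → ℝ) : ℝ :=
  ∑ p : Equiv.Perm (Fin 3), ∏ i, (z (i, p i) + μ)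

lemma univ_perm3 : (Finset.univ : Finset (Equiv.Perm (Fin 3))) =
    {1, Equiv.swap 0 1, Equiv.swap 0 2, Equiv.swap 1 2,
      Equiv.swap 0 1 * Equiv.swap 1 2, Equiv.swap 1 2 * Equiv.swap 0 1} := by
  decide

lemma sum_perm3 (w : Fin 3 × Fin 3 → ℝ) :
    ∑ p : Equiv.Perm (Fin 3), ∏ i, w (i, p i) =
      per3 (w (0,0)) (w (0,1)) (w (0,2)) (w (1,0)) (w (1,1)) (w (1,2))
        (w (2,0)) (w (2,1)) (w (2,2)) := by
  rw [univ_perm3]
  rw [Finset.sum_insert (by decide), Finset.sum_insert (by decide), Finset.sum_insert (by decide),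
    Finset.sum_insert (by decide), Finset.sum_insert (by decide), Finset.sum_singleton]
  simp only [Fin.prod_univ_three]
  have h1 : (Equiv.swap (0 : Fin 3) 1) 0 = 1 := by decide
  have h2 : (Equiv.swap (0 : Fin 3) 1) 1 = 0 := by decide
  have h3 : (Equiv.swap (0 : Fin 3) 1) 2 = 2 := by decide
  have h4 : (Equiv.swap (0 : Fin 3) 2) 0 = 2 := by decide
  have h5 : (Equiv.swap (0 : Fin 3) 2) 1 = 1 := by decide
  have h6 : (Equiv.swap (0 : Fin 3) 2) 2 = 0 := by decide
  have h7 : (Equiv.swap (1 : Fin 3) 2) 0 = 0 := by decide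
  have h8 : (Equiv.swap (1 : Fin 3) 2) 1 = 2 := by decide
  have h9 : (Equiv.swap (1 : Fin 3) 2) 2 = 1 := by decide
  simp only [Equiv.Perm.coe_mul, Function.comp_apply, Equiv.Perm.coe_one, id_eq, h1, h2, h3, h4,
    h5, h6, h7, h8, h9]
  unfold per3
  ring

/-- (C) : upper bound for the nine-dimensional Gaussian integral -/
theorem upper_nine (μ : ℝ) (hμ : 0 < μ) : ∃ K : ℝ, 0 < K ∧ ∀ n : ℕ, 0 < n →
    ∫ z, (Q9 μ z) ^ n ∂(Measure.pi fun _ : Fin 3 × Fin 3 => gam) ≤
      K * ((6 * (√(n / 3)) ^ 3) ^ n * rexp (-(3 * n) / 2) * rexp (9 * μ * √(n / 3))) := by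
  set K1 : ℝ := (√(2 * π))⁻¹ * (rexp (μ ^ 2 / 2) *
      (2 * √(π / ((1/6000) / 2)) * rexp (μ ^ 2 / (2 * (1/6000))))) with hK1
  have hK1pos : 0 < K1 := by positivity
  refine ⟨K1 ^ 9, by positivity, ?_⟩
  intro n hn
  have hn' : (0:ℝ) < n := by exact_mod_cast hn
  set z0 := √(n / 3 : ℝ) with hz0
  have hz0pos : 0 < z0 := Real.sqrt_pos.2 (by positivity)
  have hz0n : 3 * z0 ^ 2 = n := by rw [hz0, Real.sq_sqrt (by positivity)]; ring
  set g : ℝ → ℝ := fun z => rexp ((|z| + μ) ^ 2 / 2 - (1/6000) * (|z| + μ - z0) ^ 2) with hg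
  set M : ℝ := (6 * z0 ^ 3) ^ n * rexp (-(3 * n) / 2) with hM
  have hMpos : 0 < M := by positivity
  -- weighted one dimensional function
  have hgw : ∀ z : ℝ, rexp (-z ^ 2 / 2) * g z =
      rexp (μ ^ 2 / 2) * rexp (μ * |z| - (1/6000) * (|z| - (z0 - μ)) ^ 2) := by
    intro z
    rw [hg]
    simp only
    rw [← exp_add, ← exp_add]
    congr 1
    have : |z| ^ 2 = z ^ 2 := sq_abs z
    rw [← this]; ring
  have hgint : Integrable g gam := by
    rw [gam, gaussianReal_of_var_ne_zero 0 (by norm_num)]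
    have hmeas : Measurable (gaussianPDF 0 1) := measurable_gaussianPDF 0 1
    rw [integrable_withDensity_iff hmeas (by filter_upwards with x; exact gaussianPDF_lt_top)]
    have h2 : Integrable (fun z : ℝ => (√(2 * π))⁻¹ * (rexp (μ ^ 2 / 2) *
        rexp (μ * |z| - (1/6000) * (|z| - (z0 - μ)) ^ 2))) :=
      ((integrable_lin_gauss (1/6000) μ (z0 - μ) (by norm_num)).const_mul _).const_mul _
    refine h2.congr ?_
    filter_upwards with z
    rw [← hgw z, toReal_gaussianPDF]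
    simp [gaussianPDFReal]
    ring
  have hgval : ∫ z, g z ∂gam ≤ K1 * rexp (μ * z0) := by
    rw [integral_gam]
    simp_rw [hgw]
    rw [integral_const_mul]
    have h3 := integral_lin_gauss_le (1/6000) μ (z0 - μ) (by norm_num)
    have h4 : rexp (μ * (z0 - μ)) ≤ rexp (μ * z0) := exp_le_exp.2 (by nlinarith)
    calc (√(2 * π))⁻¹ * (rexp (μ ^ 2 / 2) *
          ∫ z : ℝ, rexp (μ * |z| - (1/6000) * (|z| - (z0 - μ)) ^ 2))
        ≤ (√(2 * π))⁻¹ * (rexp (μ ^ 2 / 2) *
          ((2 * √(π / ((1/6000) / 2)) * rexp (μ ^ 2 / (2 * (1/6000)))) * rexp (μ * z0))) := by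
          gcongr
          exact h3.trans (mul_le_mul_of_nonneg_left h4 (by positivity))
      _ = _ := by rw [hK1]; ring
  have hg0 : ∀ z, 0 ≤ g z := fun z => (exp_pos _).le
  -- pointwise bound
  have hpt : ∀ z : Fin 3 × Fin 3 → ℝ, |Q9 μ z| ^ n ≤ M * ∏ c, g (z c) := by
    intro z
    set w : Fin 3 × Fin 3 → ℝ := fun c => |z c| + μ with hw
    have hw0 : ∀ c, 0 ≤ w c := fun c => by rw [hw]; positivity
    have h1 : |Q9 μ z| ≤ ∑ p : Equiv.Perm (Fin 3), ∏ i, w (i, p i) := by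
      unfold Q9
      refine (Finset.abs_sum_le_sum_abs _ _).trans (Finset.sum_le_sum fun p _ => ?_)
      rw [Finset.abs_prod]
      apply Finset.prod_le_prod
      · intro i _; exact abs_nonneg _
      · intro i _
        rw [hw]
        refine (abs_add_le _ _).trans ?_
        rw [abs_of_pos hμ]
    rw [sum_perm3] at h1
    have h2 := per3_pow_le n hn z0 hz0pos hz0n (w (0,0)) (w (0,1)) (w (0,2)) (w (1,0)) (w (1,1))
      (w (1,2)) (w (2,0)) (w (2,1)) (w (2,2)) (hw0 _) (hw0 _) (hw0 _) (hw0 _) (hw0 _) (hw0 _)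
      (hw0 _) (hw0 _) (hw0 _) _ _ rfl rfl
    refine (pow_le_pow_left₀ (abs_nonneg _) h1 n).trans (h2.trans (le_of_eq ?_))
    rw [hM]
    congr 1
    rw [hg]
    simp only
    rw [← Real.exp_sum]
    congr 1
    rw [Fintype.sum_prod_type]
    simp only [Fin.sum_univ_three, hw]
    ring
  have h1 : ∫ z, (Q9 μ z) ^ n ∂(Measure.pi fun _ : Fin 3 × Fin 3 => gam) ≤
      ∫ z, |Q9 μ z| ^ n ∂(Measure.pi fun _ : Fin 3 × Fin 3 => gam) := by
    refine (le_abs_self _).trans ((abs_integral_le_integral_abs).trans (le_of_eq ?_))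
    congr 1; ext z; rw [abs_pow]
  have h2 : ∫ z, |Q9 μ z| ^ n ∂(Measure.pi fun _ : Fin 3 × Fin 3 => gam) ≤
      ∫ z, M * ∏ c, g (z c) ∂(Measure.pi fun _ : Fin 3 × Fin 3 => gam) := by
    apply integral_mono_of_nonneg
    · filter_upwards with z
      positivity
    · exact (Integrable.fintype_prod (f := fun (_ : Fin 3 × Fin 3) (x : ℝ) => g x)
        (fun _ => hgint)).const_mul _
    · filter_upwards with z
      exact hpt z
  rw [integral_const_mul, integral_fintype_prod_eq_prod (𝕜 := ℝ)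
    (fun (_ : Fin 3 × Fin 3) (x : ℝ) => g x)] at h2
  rw [Finset.prod_const] at h2
  have hcard : (Finset.univ : Finset (Fin 3 × Fin 3)).card = 9 := by decide
  rw [hcard] at h2
  have h0 : 0 ≤ ∫ z, g z ∂gam := integral_nonneg hg0
  have h3 : (∫ z, g z ∂gam) ^ 9 ≤ (K1 * rexp (μ * z0)) ^ 9 := pow_le_pow_left₀ h0 hgval 9
  refine h1.trans (h2.trans ((mul_le_mul_of_nonneg_left h3 hMpos.le).trans (le_of_eq ?_)))
  rw [mul_pow, ← Real.exp_nat_mul]
  have : ((9 : ℕ) : ℝ) * (μ * z0) = 9 * μ * z0 := by push_cast; ring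
  rw [this, hM]; ring

end Pool.Agent.Results.MP_c4b7b1_co.ClassTwoNotTypical.Gauss
end

section
open MeasureTheory ProbabilityTheory Real

namespace Pool.Agent.Results.MP_c4b7b1_co.ClassTwoNotTypical.Gauss

lemma integrable_add_pow (ν : ℝ) (n : ℕ) : Integrable (fun z : ℝ => (ν + z) ^ n) gam := by
  have : (fun z : ℝ => (ν + z) ^ n) =
      fun z : ℝ => ∑ k ∈ Finset.range (n + 1), (ν ^ k * (n.choose k)) * z ^ (n - k) := by
    ext z
    rw [add_pow]
    refine Finset.sum_congr rfl fun k _ => by ring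
  rw [this]
  exact integrable_finset_sum _ fun k _ => (integrable_pow (n - k)).const_mul _

lemma integral_neg_gam (f : ℝ → ℝ) : ∫ z, f (-z) ∂gam = ∫ z, f z ∂gam := by
  rw [integral_gam, integral_gam]
  congr 1
  rw [← integral_neg_eq_self (fun x => rexp (-x ^ 2 / 2) * f x)]
  congr 1; ext x; simp

lemma sym_nonneg (ν z : ℝ) (hν : 0 < ν) (n : ℕ) : 0 ≤ (ν + z) ^ n + (ν + -z) ^ n := by
  rcases Nat.even_or_odd n with h | h
  · exact add_nonneg (h.pow_nonneg _) (h.pow_nonneg _)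
  · have h1 : (z - ν) ^ n ≤ (ν + z) ^ n := h.strictMono_pow.monotone (by linarith)
    have h2 : (ν + -z) ^ n = -(z - ν) ^ n := by
      have : ν + -z = -(z - ν) := by ring
      rw [this, h.neg_pow]
    rw [h2]; linarith

lemma window_low (ν : ℝ) (hν : 0 < ν) (n : ℕ) (hn : 0 < n) (z : ℝ) (hz : √n ≤ z)
    (hz2 : z ≤ √n + 1) :
    (√n) ^ n * rexp (-(n:ℝ) / 2) * rexp (ν * √n) * rexp (-((1 + ν) ^ 2 + 1) / 2) ≤
      rexp (-z ^ 2 / 2) * (ν + z) ^ n := by
  have hn' : (0:ℝ) < n := by exact_mod_cast hn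
  set r := √(n:ℝ) with hr
  have hrpos : 0 < r := Real.sqrt_pos.2 hn'
  have hr2 : r ^ 2 = n := Real.sq_sqrt hn'.le
  obtain ⟨s, hs⟩ : ∃ s, s = z - r := ⟨_, rfl⟩
  have hzs : z = r + s := by rw [hs]; ring
  have hs0 : 0 ≤ s := by rw [hs]; linarith
  have hs1 : s ≤ 1 := by rw [hs]; linarith
  set x := (s + ν) / r with hx
  have hx0 : 0 < x := by rw [hx]; positivity
  have h1 : rexp (x - x ^ 2 / 2) ≤ 1 + x := by
    have h2 := Real.le_log_one_add_of_nonneg hx0.le
    have h3 : x - x ^ 2 / 2 ≤ 2 * x / (x + 2) := by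
      rw [le_div_iff₀ (by positivity)]
      nlinarith [pow_pos hx0 3]
    have h4 : x - x ^ 2 / 2 ≤ Real.log (1 + x) := h3.trans h2
    calc rexp (x - x ^ 2 / 2) ≤ rexp (Real.log (1 + x)) := exp_le_exp.2 h4
      _ = 1 + x := exp_log (by positivity)
  have h2 : ν + z = r * (1 + x) := by rw [hzs, hx]; field_simp; ring
  have h3 : r ^ n * rexp (n * (x - x ^ 2 / 2)) ≤ (ν + z) ^ n := by
    rw [h2, mul_pow, Real.exp_nat_mul]
    apply mul_le_mul_of_nonneg_left _ (by positivity)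
    exact pow_le_pow_left₀ (exp_pos _).le h1 n
  have h4 : (n:ℝ) * (x - x ^ 2 / 2) = (s + ν) * r - (s + ν) ^ 2 / 2 := by
    rw [hx, ← hr2]; field_simp
  calc r ^ n * rexp (-(n:ℝ) / 2) * rexp (ν * r) * rexp (-((1 + ν) ^ 2 + 1) / 2)
      = r ^ n * rexp (-(n:ℝ) / 2 + ν * r + -((1 + ν) ^ 2 + 1) / 2) := by
        rw [exp_add, exp_add]; ring
    _ ≤ r ^ n * rexp (-z ^ 2 / 2 + n * (x - x ^ 2 / 2)) := by
        apply mul_le_mul_of_nonneg_left _ (by positivity)
        apply exp_le_exp.2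
        rw [h4, ← hr2, hzs]
        nlinarith [mul_nonneg hs0 hν.le, mul_nonneg hs0 hs0]
    _ = rexp (-z ^ 2 / 2) * (r ^ n * rexp (n * (x - x ^ 2 / 2))) := by rw [exp_add]; ring
    _ ≤ _ := mul_le_mul_of_nonneg_left h3 (exp_pos _).le

lemma window_half (ν : ℝ) (hν : 0 < ν) (n : ℕ) (hn : 0 < n) (h1 : 1 + ν ≤ √n) (h2 : 1 ≤ ν * √n)
    (z : ℝ) (hz : √n ≤ z) (hz2 : z ≤ √n + 1) :
    (1 / 2) * (ν + z) ^ n ≤ (ν + z) ^ n + (ν + -z) ^ n := by
  have hn' : (0:ℝ) < n := by exact_mod_cast hn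
  set r := √(n:ℝ) with hr
  have hrpos : 0 < r := Real.sqrt_pos.2 hn'
  have hr2 : r ^ 2 = n := Real.sq_sqrt hn'.le
  have hzν : ν ≤ z := by linarith
  have hsum : 0 < ν + z := by linarith
  have h3 : |(ν + -z) ^ n| ≤ (1 / 2) * (ν + z) ^ n := by
    rw [abs_pow]
    have e1 : |ν + -z| = z - ν := by rw [abs_of_nonpos (by linarith)]; ring
    rw [e1]
    have e2 : z - ν ≤ (ν + z) * rexp (-(2 * ν / (ν + z))) := by
      have := add_one_le_exp (-(2 * ν / (ν + z)))
      have e3 := mul_le_mul_of_nonneg_left this hsum.le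
      refine le_trans (le_of_eq ?_) e3
      field_simp; ring
    have e3 : (z - ν) ^ n ≤ ((ν + z) * rexp (-(2 * ν / (ν + z)))) ^ n :=
      pow_le_pow_left₀ (by linarith) e2 n
    refine e3.trans ?_
    rw [mul_pow, ← Real.exp_nat_mul, mul_comm]
    apply mul_le_mul_of_nonneg_right _ (by positivity)
    have e4 : 1 ≤ n * (2 * ν / (ν + z)) := by
      rw [← mul_div_assoc, le_div_iff₀ hsum, ← hr2]
      nlinarith
    have e5 : rexp ((n:ℝ) * -(2 * ν / (ν + z))) ≤ rexp (-1) := exp_le_exp.2 (by linarith)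
    have e6 : rexp (-1) ≤ 1 / 2 := by
      rw [Real.exp_neg]
      have := add_one_le_exp (1:ℝ)
      rw [inv_eq_one_div]
      apply one_div_le_one_div_of_le (by norm_num)
      linarith
    exact e5.trans e6
  have h4 := neg_abs_le ((ν + -z) ^ n)
  linarith

/-- (B) lower bound -/
theorem lower_one (ν : ℝ) (hν : 0 < ν) : ∃ K : ℝ, 0 < K ∧ ∃ N : ℕ, ∀ n : ℕ, N ≤ n →
    K * ((√n) ^ n * rexp (-(n:ℝ) / 2) * rexp (ν * √n)) ≤ ∫ z, (ν + z) ^ n ∂gam := by
  refine ⟨(√(2 * π))⁻¹ * (1 / 4) * rexp (-((1 + ν) ^ 2 + 1) / 2), by positivity,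
    ⌈(1 + ν) ^ 2⌉₊ + ⌈(1 / ν) ^ 2⌉₊ + 1, ?_⟩
  intro n hn
  have hn0 : 0 < n := by omega
  have hn' : (0:ℝ) < n := by exact_mod_cast hn0
  have hr1 : 1 + ν ≤ √n := by
    apply Real.le_sqrt_of_sq_le
    have e1 := Nat.le_ceil ((1 + ν) ^ 2)
    have : ((⌈(1 + ν) ^ 2⌉₊ : ℕ) : ℝ) ≤ n := by exact_mod_cast (by omega)
    linarith
  have hr2 : 1 ≤ ν * √n := by
    have e1 := Nat.le_ceil ((1 / ν) ^ 2)
    have e2 : ((⌈(1 / ν) ^ 2⌉₊ : ℕ) : ℝ) ≤ n := by exact_mod_cast (by omega)
    have e3 : 1 / ν ≤ √n := Real.le_sqrt_of_sq_le (by linarith)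
    rw [div_le_iff₀ hν] at e3
    linarith
  have hsym : ∫ z, (ν + z) ^ n ∂gam = (1 / 2) * ∫ z, ((ν + z) ^ n + (ν + -z) ^ n) ∂gam := by
    have hint : Integrable (fun z : ℝ => (ν + -z) ^ n) gam := by
      have : (fun z : ℝ => (ν + -z) ^ n) =
          fun z : ℝ => ∑ k ∈ Finset.range (n + 1),
            (ν ^ k * (n.choose k) * (-1) ^ (n - k)) * z ^ (n - k) := by
        ext z
        rw [add_pow]
        refine Finset.sum_congr rfl fun k _ => ?_
        rw [neg_pow z (n - k)]; ring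
      rw [this]
      exact integrable_finset_sum _ fun k _ => (integrable_pow (n - k)).const_mul _
    rw [integral_add (integrable_add_pow ν n) hint,
      integral_neg_gam (fun z => (ν + z) ^ n)]
    ring
  rw [hsym, integral_gam]
  set W := Set.Icc (√n) (√n + 1) with hW
  set M := (√n) ^ n * rexp (-(n:ℝ) / 2) * rexp (ν * √n) * rexp (-((1 + ν) ^ 2 + 1) / 2) with hM
  have hMpos : 0 ≤ M := by positivity
  have hlow : (1 / 2) * M ≤ ∫ z : ℝ, rexp (-z ^ 2 / 2) * ((ν + z) ^ n + (ν + -z) ^ n) := by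
    have hcont : Continuous fun z : ℝ => rexp (-z ^ 2 / 2) * ((ν + z) ^ n + (ν + -z) ^ n) := by
      fun_prop
    have hintg : Integrable fun z : ℝ => rexp (-z ^ 2 / 2) * ((ν + z) ^ n + (ν + -z) ^ n) := by
      have : (fun z : ℝ => rexp (-z ^ 2 / 2) * ((ν + z) ^ n + (ν + -z) ^ n)) =
          fun z : ℝ => ∑ k ∈ Finset.range (n + 1),
            (ν ^ k * (n.choose k) * (1 + (-1) ^ (n - k))) * (z ^ (n - k) * rexp (-z ^ 2 / 2)) := by
        ext z
        rw [add_pow, add_pow, ← Finset.sum_add_distrib, Finset.mul_sum]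
        refine Finset.sum_congr rfl fun k _ => ?_
        rw [neg_pow z (n - k)]; ring
      rw [this]
      exact integrable_finset_sum _ fun k _ => (integrable_pow_exp (n - k)).const_mul _
    have h1 : ∫ z in W, rexp (-z ^ 2 / 2) * ((ν + z) ^ n + (ν + -z) ^ n) ≤
        ∫ z : ℝ, rexp (-z ^ 2 / 2) * ((ν + z) ^ n + (ν + -z) ^ n) := by
      apply setIntegral_le_integral hintg
      filter_upwards with z
      exact mul_nonneg (exp_pos _).le (sym_nonneg ν z hν n)
    have h2 : ∫ z in W, (1 / 2) * M ≤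
        ∫ z in W, rexp (-z ^ 2 / 2) * ((ν + z) ^ n + (ν + -z) ^ n) := by
      apply setIntegral_mono_on
      · exact (continuous_const.integrableOn_Icc)
      · exact hintg.integrableOn
      · exact measurableSet_Icc
      · intro z hz
        have e1 := window_low ν hν n hn0 z hz.1 hz.2
        have e2 := window_half ν hν n hn0 hr1 hr2 z hz.1 hz.2
        have e3 := mul_le_mul_of_nonneg_left e2 (exp_pos (-z ^ 2 / 2)).le
        rw [← hM] at e1
        refine le_trans ?_ e3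
        linarith
    have h3 : ∫ z in W, (1 / 2) * M = (1 / 2) * M := by
      rw [setIntegral_const, hW]
      simp
    linarith
  have hfin : (√(2 * π))⁻¹ * (1 / 4) * rexp (-((1 + ν) ^ 2 + 1) / 2) *
      ((√n) ^ n * rexp (-(n:ℝ) / 2) * rexp (ν * √n)) = 1 / 2 * ((√(2 * π))⁻¹ * (1 / 2 * M)) := by
    rw [hM]; ring
  rw [hfin]
  gcongr

end Pool.Agent.Results.MP_c4b7b1_co.ClassTwoNotTypical.Gauss
end

section
open Equiv

namespace Pool.Agent.Results.MP_c4b7b1_co.ClassTwoNotTypical.Inv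

variable {V : Type*} [Fintype V] [DecidableEq V]

/-- involutions of `V` that fix everything outside `U` and never use an `F`-edge -/
noncomputable def S (F : V → V → Prop) (U : Finset V) : Finset (Perm V) := by
  classical
  exact Finset.univ.filter fun σ =>
    (∀ x, σ (σ x) = x) ∧ (∀ x, x ∉ U → σ x = x) ∧ ∀ x, σ x ≠ x → ¬ F x (σ x)

lemma mem_S {F : V → V → Prop} {U : Finset V} {σ : Perm V} :
    σ ∈ S F U ↔ (∀ x, σ (σ x) = x) ∧ (∀ x, x ∉ U → σ x = x) ∧ ∀ x, σ x ≠ x → ¬ F x (σ x) := by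
  classical
  simp [S]

/-- weighted count: weight `a x` for every fixed point `x ∈ U` -/
noncomputable def N (F : V → V → Prop) (a : V → ℝ) (U : Finset V) : ℝ :=
  ∑ σ ∈ S F U, ∏ x ∈ U, (if σ x = x then a x else 1)

lemma N_nonneg (F : V → V → Prop) (a : V → ℝ) (ha : ∀ x, 0 ≤ a x) (U : Finset V) :
    0 ≤ N F a U := by
  unfold N
  apply Finset.sum_nonneg
  intro σ _
  apply Finset.prod_nonneg
  intro x _
  split_ifs
  · exact ha x
  · norm_num

lemma N_empty (F : V → V → Prop) (a : V → ℝ) : N F a ∅ = 1 := by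
  classical
  have : S F (∅ : Finset V) = {1} := by
    ext σ
    rw [mem_S, Finset.mem_singleton]
    constructor
    · rintro ⟨_, h, _⟩
      ext x
      simpa using h x (by simp)
    · rintro rfl
      simp
  simp [N, this]

lemma N_rec (F : V → V → Prop) [DecidableRel F] (hF : ∀ x y, F x y → F y x) (a : V → ℝ)
    (U : Finset V) (v : V) (hv : v ∈ U) :
    N F a U = a v * N F a (U.erase v) +
      ∑ u ∈ (U.erase v).filter (fun u => ¬ F v u), N F a ((U.erase v).erase u) := by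
  classical
  have hmaps : ∀ σ ∈ S F U, σ v ∈ U := by
    intro σ hσ
    rw [mem_S] at hσ
    by_contra h
    have h1 := hσ.2.1 _ h
    have h2 := hσ.1 v
    rw [h1] at h2
    rw [h2] at h
    exact h hv
  have hsplit : N F a U = ∑ u ∈ U, ∑ σ ∈ (S F U).filter (fun σ => σ v = u),
      ∏ x ∈ U, (if σ x = x then a x else 1) := by
    unfold N
    rw [Finset.sum_fiberwise_of_maps_to hmaps]
  rw [hsplit, ← Finset.add_sum_erase U _ hv]
  congr 1
  · -- the term u = v
    unfold N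
    rw [Finset.mul_sum]
    have hset : (S F U).filter (fun σ => σ v = v) = S F (U.erase v) := by
      ext σ
      rw [Finset.mem_filter, mem_S, mem_S]
      constructor
      · rintro ⟨⟨h1, h2, h3⟩, h4⟩
        refine ⟨h1, ?_, h3⟩
        intro x hx
        rw [Finset.mem_erase, not_and_or] at hx
        rcases hx with hx | hx
        · have : x = v := not_not.1 hx
          rw [this]; exact h4
        · exact h2 x hx
      · rintro ⟨h1, h2, h3⟩
        refine ⟨⟨h1, ?_, h3⟩, h2 v (by simp)⟩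
        intro x hx
        exact h2 x (fun h => hx (Finset.mem_of_mem_erase h))
    rw [hset]
    apply Finset.sum_congr rfl
    intro σ hσ
    rw [mem_S] at hσ
    rw [← Finset.mul_prod_erase U _ hv]
    rw [if_pos (hσ.2.1 v (by simp))]
  · -- the terms u ≠ v
    rw [Finset.sum_filter]
    apply Finset.sum_congr rfl
    intro u hu
    have huv : u ≠ v := Finset.ne_of_mem_erase hu
    have huU : u ∈ U := Finset.mem_of_mem_erase hu
    by_cases hFu : ¬ F v u
    · -- allowed edge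
      rw [if_pos hFu]
      unfold N
      refine Finset.sum_bij' (fun σ _ => σ * swap v u) (fun σ _ => σ * swap v u) ?_ ?_ ?_ ?_ ?_
      · intro σ hσ
        rw [Finset.mem_filter, mem_S] at hσ
        obtain ⟨⟨h1, h2, h3⟩, h4⟩ := hσ
        have h5 : σ u = v := by rw [← h4]; exact h1 v
        rw [mem_S]
        have hform : ∀ x, (σ * swap v u) x = if x = v ∨ x = u then x else σ x := by
          intro x
          rw [Perm.mul_apply]
          by_cases hxv : x = v
          · rw [hxv, swap_apply_left, h5]; simp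
          · by_cases hxu : x = u
            · rw [hxu, swap_apply_right, h4]; simp
            · rw [swap_apply_of_ne_of_ne hxv hxu]; simp [hxv, hxu]
        refine ⟨?_, ?_, ?_⟩
        · intro x
          rw [hform x]
          by_cases hx : x = v ∨ x = u
          · rw [if_pos hx, hform x, if_pos hx]
          · rw [if_neg hx, hform (σ x)]
            have : ¬ (σ x = v ∨ σ x = u) := by
              rintro (h | h)
              · apply hx; right
                rw [← h1 x, h]; exact h4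
              · apply hx; left
                rw [← h1 x, h]; exact h5
            rw [if_neg this]; exact h1 x
        · intro x hx
          rw [hform x]
          split_ifs with h
          · rfl
          · push Not at h
            apply h2
            intro hxU
            exact hx (Finset.mem_erase.2 ⟨h.2, Finset.mem_erase.2 ⟨h.1, hxU⟩⟩)
        · intro x
          rw [hform x]
          split_ifs with h
          · intro h'; exact absurd rfl h'
          · exact h3 x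
      · intro σ hσ
        rw [mem_S] at hσ
        obtain ⟨h1, h2, h3⟩ := hσ
        have hv1 : σ v = v := h2 v (by simp)
        have hu1 : σ u = u := h2 u (by simp)
        have hform : ∀ x, (σ * swap v u) x = if x = v then u else if x = u then v else σ x := by
          intro x
          rw [Perm.mul_apply]
          by_cases hxv : x = v
          · rw [hxv, swap_apply_left, hu1]; simp
          · by_cases hxu : x = u
            · rw [hxu, swap_apply_right, hv1]; simp [huv]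
            · rw [swap_apply_of_ne_of_ne hxv hxu]; simp [hxv, hxu]
        rw [Finset.mem_filter, mem_S]
        refine ⟨⟨?_, ?_, ?_⟩, ?_⟩
        · intro x
          by_cases hxv : x = v
          · rw [hform x, if_pos hxv, hform u, if_neg huv, if_pos rfl, hxv]
          · by_cases hxu : x = u
            · rw [hform x, if_neg hxv, if_pos hxu, hform v, if_pos rfl, hxu]
            · rw [hform x, if_neg hxv, if_neg hxu, hform (σ x)]
              have e1 : σ x ≠ v := fun h => hxv (by rw [← h1 x, h, hv1])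
              have e2 : σ x ≠ u := fun h => hxu (by rw [← h1 x, h, hu1])
              rw [if_neg e1, if_neg e2]; exact h1 x
        · intro x hx
          have e1 : x ≠ v := fun h => hx (h ▸ hv)
          have e2 : x ≠ u := fun h => hx (h ▸ huU)
          rw [hform x, if_neg e1, if_neg e2]
          apply h2
          intro h
          exact hx (Finset.mem_of_mem_erase (Finset.mem_of_mem_erase h))
        · intro x
          rw [hform x]
          split_ifs with e1 e2
          · intro _; rw [e1]; exact hFu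
          · intro _; rw [e2]; exact fun h => hFu (hF _ _ h)
          · exact h3 x
        · rw [hform v, if_pos rfl]
      · intro σ _
        simp
      · intro σ _
        simp
      · intro σ hσ
        rw [Finset.mem_filter, mem_S] at hσ
        obtain ⟨⟨h1, h2, h3⟩, h4⟩ := hσ
        have h5 : σ u = v := by rw [← h4]; exact h1 v
        rw [← Finset.mul_prod_erase U _ hv, ← Finset.mul_prod_erase (U.erase v) _ hu]
        rw [if_neg (by rw [h4]; exact huv), if_neg (by rw [h5]; exact huv.symm), one_mul, one_mul]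
        apply Finset.prod_congr rfl
        intro x hx
        have e1 : x ≠ u := Finset.ne_of_mem_erase hx
        have e2 : x ≠ v := Finset.ne_of_mem_erase (Finset.mem_of_mem_erase hx)
        rw [Perm.mul_apply, swap_apply_of_ne_of_ne e2 e1]
    · -- forbidden edge: empty sum
      rw [if_neg hFu]
      apply Finset.sum_eq_zero
      intro σ hσ
      rw [Finset.mem_filter, mem_S] at hσ
      obtain ⟨⟨h1, h2, h3⟩, h4⟩ := hσ
      exfalso
      apply h3 v (by rw [h4]; exact huv)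
      rw [h4]
      exact not_not.1 hFu

end Pool.Agent.Results.MP_c4b7b1_co.ClassTwoNotTypical.Inv
end

section
open Equiv

namespace Pool.Agent.Results.MP_c4b7b1_co.ClassTwoNotTypical.Inv

variable {V : Type*} [Fintype V] [DecidableEq V]

/-- solution of the two term recursion equals the unrestricted weighted count -/
lemma N_bot_eq (ν : ℝ) (s : ℕ → ℝ) (h0 : s 0 = 1) (h1 : s 1 = ν)
    (hrec : ∀ k, s (k + 2) = ν * s (k + 1) + (k + 1) * s k) :
    ∀ (k : ℕ) (U : Finset V), U.card = k → N (fun _ _ => False) (fun _ => ν) U = s k := by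
  classical
  intro k
  induction k using Nat.strong_induction_on with
  | _ k ih =>
    intro U hU
    match k, ih, hU with
    | 0, _, hU =>
      rw [Finset.card_eq_zero] at hU
      rw [hU, N_empty, h0]
    | 1, ih, hU =>
      obtain ⟨v, rfl⟩ := Finset.card_eq_one.1 hU
      rw [N_rec _ (by simp) _ _ v (by simp)]
      simp [N_empty, h1]
    | (k + 2), ih, hU =>
      obtain ⟨v, hv⟩ : U.Nonempty := by rw [← Finset.card_pos]; omega
      rw [N_rec _ (by simp) _ _ v hv, hrec]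
      have e1 : (U.erase v).card = k + 1 := by rw [Finset.card_erase_of_mem hv, hU]; rfl
      rw [ih (k + 1) (by omega) _ e1]
      congr 1
      have e2 : ∀ u ∈ (U.erase v).filter (fun _ => ¬ False),
          N (fun _ _ => False) (fun _ => ν) ((U.erase v).erase u) = s k := by
        intro u hu
        have hu' : u ∈ U.erase v := by simpa using hu
        apply ih k (by omega)
        rw [Finset.card_erase_of_mem hu', e1]; rfl
      rw [Finset.sum_congr rfl e2]
      simp only [not_false_eq_true, Finset.filter_true, Finset.sum_const, e1, nsmul_eq_mul]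
      push_cast; ring

/-- number of involutions whose set of moved points is exactly `U` -/
lemma card_exact (s : ℕ → ℝ) (h0 : s 0 = 1) (h1 : s 1 = 0)
    (hrec : ∀ k, s (k + 2) = (k + 1) * s k) (U : Finset V) :
    ((Finset.univ.filter fun σ : Perm V =>
      (∀ x, σ (σ x) = x) ∧ ∀ x, σ x ≠ x ↔ x ∈ U).card : ℝ) = s U.card := by
  classical
  rw [← N_bot_eq (V := V) 0 s h0 h1 (by intro k; rw [hrec]; ring) U.card U rfl]
  unfold N
  rw [Finset.card_eq_sum_ones, Nat.cast_sum]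
  have hsub : (Finset.univ.filter fun σ : Perm V =>
      (∀ x, σ (σ x) = x) ∧ ∀ x, σ x ≠ x ↔ x ∈ U) ⊆ S (fun _ _ => False) U := by
    intro σ hσ
    rw [Finset.mem_filter] at hσ
    rw [mem_S]
    refine ⟨hσ.2.1, ?_, fun _ _ h => h⟩
    intro x hx
    by_contra h
    exact hx ((hσ.2.2 x).1 h)
  rw [← Finset.sum_subset hsub]
  · apply Finset.sum_congr rfl
    intro σ hσ
    rw [Finset.mem_filter] at hσ
    rw [Finset.prod_eq_one]
    · simp
    · intro x hx
      rw [if_neg ((hσ.2.2 x).2 hx)]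
  · intro σ hσ hσ'
    rw [mem_S] at hσ
    rw [Finset.mem_filter] at hσ'
    have : ∃ x ∈ U, σ x = x := by
      by_contra hcon
      push Not at hcon
      apply hσ'
      refine ⟨Finset.mem_univ _, hσ.1, ?_⟩
      intro x
      constructor
      · intro h
        by_contra hx
        exact h (hσ.2.1 x hx)
      · intro h
        exact hcon x h
    obtain ⟨x, hx, hx'⟩ := this
    apply Finset.prod_eq_zero hx
    rw [if_pos hx']

/-- degree inside `U` -/
def dg (G : SimpleGraph V) [DecidableRel G.Adj] (U : Finset V) (v : V) : ℕ :=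
  (U.filter fun u => G.Adj v u).card

/-- sum of degrees inside `U` -/
def e2 (G : SimpleGraph V) [DecidableRel G.Adj] (U : Finset V) : ℕ := ∑ v ∈ U, dg G U v

omit [Fintype V] in
lemma dg_erase (G : SimpleGraph V) [DecidableRel G.Adj] (U : Finset V) (v u : V) (hv : v ∈ U) :
    dg G U u = dg G (U.erase v) u + (if G.Adj v u then 1 else 0) := by
  unfold dg
  rw [Finset.filter_erase]
  by_cases h : G.Adj v u
  · have hm : v ∈ U.filter fun w => G.Adj u w := Finset.mem_filter.2 ⟨hv, h.symm⟩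
    rw [if_pos h]
    have := Finset.card_erase_add_one hm
    omega
  · rw [if_neg h, Finset.erase_eq_of_notMem, add_zero]
    intro h'
    exact h (Finset.mem_filter.1 h').2.symm

omit [Fintype V] in
lemma sum_adj_erase (G : SimpleGraph V) [DecidableRel G.Adj] (U : Finset V) (v : V) :
    ∑ u ∈ U.erase v, (if G.Adj v u then 1 else 0) = dg G U v := by
  unfold dg
  rw [Finset.card_filter]
  by_cases hv : v ∈ U
  · rw [← Finset.add_sum_erase U _ hv]
    simp
  · rw [Finset.erase_eq_of_notMem hv]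

omit [Fintype V] in
lemma e2_erase (G : SimpleGraph V) [DecidableRel G.Adj] (U : Finset V) (v : V) (hv : v ∈ U) :
    e2 G U = e2 G (U.erase v) + 2 * dg G U v := by
  unfold e2
  rw [← Finset.add_sum_erase U _ hv]
  have : ∑ u ∈ U.erase v, dg G U u = ∑ u ∈ U.erase v, dg G (U.erase v) u + dg G U v := by
    rw [← sum_adj_erase G U v, ← Finset.sum_add_distrib]
    exact Finset.sum_congr rfl fun u _ => dg_erase G U v u hv
  rw [this]; ring

end Pool.Agent.Results.MP_c4b7b1_co.ClassTwoNotTypical.Inv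
end

section
open Equiv

namespace Pool.Agent.Results.MP_c4b7b1_co.ClassTwoNotTypical.Inv

/-- polynomial inequality, degree one case -/
lemma poly1 (n Q : ℝ) (hn : 40 ≤ n) (hQ1 : n ≤ Q) (hQ2 : Q ≤ 3 * n) :
    (n - 1) * (n - 2) ^ 2 * Q ^ 2 ≤
      ((n - 1 - 1) * (Q - 6 + 2 * 1) ^ 2 + 4 * (Q - 6 + 2 * 1) * ((3 * n - Q) - 3 * 1)) * n ^ 2 := by
  have h1 : 0 ≤ (Q - n) * (3 * n - Q) := mul_nonneg (by linarith) (by linarith)
  have h2 : 0 ≤ 3 * n ^ 2 - 20 * n + 20 := by nlinarith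
  have h3 : 0 ≤ 3 * n ^ 2 - 44 * n + 52 := by nlinarith
  have h4 : 0 ≤ n ^ 2 + 8 * n - 4 := by nlinarith
  have key : 2 * n * (((n - 1 - 1) * (Q - 6 + 2 * 1) ^ 2
      + 4 * (Q - 6 + 2 * 1) * ((3 * n - Q) - 3 * 1)) * n ^ 2 - (n - 1) * (n - 2) ^ 2 * Q ^ 2)
      = 2 * n * (n ^ 2 + 8 * n - 4) * ((Q - n) * (3 * n - Q))
        + (3 * n - Q) * (n ^ 2 * (3 * n ^ 2 - 20 * n + 20))
        + (Q - n) * (n ^ 2 * (3 * n ^ 2 - 44 * n + 52)) := by ring
  have hpos : 0 ≤ 2 * n * (n ^ 2 + 8 * n - 4) * ((Q - n) * (3 * n - Q))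
        + (3 * n - Q) * (n ^ 2 * (3 * n ^ 2 - 20 * n + 20))
        + (Q - n) * (n ^ 2 * (3 * n ^ 2 - 44 * n + 52)) := by
    have : 0 ≤ 3 * n - Q := by linarith
    have : 0 ≤ Q - n := by linarith
    have : 0 ≤ n := by linarith
    positivity
  rw [← key] at hpos
  have := nonneg_of_mul_nonneg_right hpos (by linarith)
  linarith

/-- polynomial inequality, degree two case -/
lemma poly2 (n Q : ℝ) (hn : 40 ≤ n) (hQ1 : n ≤ Q) (hQ2 : Q ≤ 3 * n) :
    (n - 1) * (n - 2) ^ 2 * Q ^ 2 ≤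
      ((n - 1 - 2) * (Q - 6 + 2 * 2) ^ 2 + 4 * (Q - 6 + 2 * 2) * ((3 * n - Q) - 3 * 2)) * n ^ 2 := by
  have h1 : 0 ≤ (Q - n) * (3 * n - Q) := mul_nonneg (by linarith) (by linarith)
  have h2 : 0 ≤ (n - 2) * (6 * n - 20) := mul_nonneg (by linarith) (by linarith)
  have h3 : 0 ≤ 6 * n ^ 2 - 104 * n + 72 := by nlinarith
  have h4 : 0 ≤ 2 * n ^ 2 + 8 * n - 4 := by nlinarith
  have key : 2 * n * (((n - 1 - 2) * (Q - 6 + 2 * 2) ^ 2
      + 4 * (Q - 6 + 2 * 2) * ((3 * n - Q) - 3 * 2)) * n ^ 2 - (n - 1) * (n - 2) ^ 2 * Q ^ 2)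
      = 2 * n * (2 * n ^ 2 + 8 * n - 4) * ((Q - n) * (3 * n - Q))
        + (3 * n - Q) * (n ^ 2 * ((n - 2) * (6 * n - 20)))
        + (Q - n) * (n ^ 2 * (6 * n ^ 2 - 104 * n + 72)) := by ring
  have hpos : 0 ≤ 2 * n * (2 * n ^ 2 + 8 * n - 4) * ((Q - n) * (3 * n - Q))
        + (3 * n - Q) * (n ^ 2 * ((n - 2) * (6 * n - 20)))
        + (Q - n) * (n ^ 2 * (6 * n ^ 2 - 104 * n + 72)) := by
    have : 0 ≤ 3 * n - Q := by linarith
    have : 0 ≤ Q - n := by linarith
    have : 0 ≤ n := by linarith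
    positivity
  rw [← key] at hpos
  have := nonneg_of_mul_nonneg_right hpos (by linarith)
  linarith

variable {V : Type*} [Fintype V] [DecidableEq V]

lemma pow_le_N (ν : ℝ) (hν : 0 < ν) (F : V → V → Prop) (U : Finset V) :
    ν ^ U.card ≤ N F (fun _ => ν) U := by
  classical
  unfold N
  have hmem : (1 : Perm V) ∈ S F U := by
    rw [mem_S]; simp
  have hnn : ∀ σ ∈ S F U, 0 ≤ ∏ x ∈ U, (if σ x = x then ν else 1) := by
    intro σ _
    apply Finset.prod_nonneg
    intro x _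
    split_ifs
    · exact hν.le
    · norm_num
  refine le_trans (le_of_eq ?_) (Finset.single_le_sum hnn hmem)
  simp

omit [Fintype V] [DecidableEq V] in
lemma e2_le (G : SimpleGraph V) [DecidableRel G.Adj] (U : Finset V)
    (h : ∀ v ∈ U, dg G U v ≤ 2) : e2 G U ≤ 2 * U.card := by
  unfold e2
  calc ∑ v ∈ U, dg G U v ≤ ∑ v ∈ U, 2 := Finset.sum_le_sum h
    _ = 2 * U.card := by rw [Finset.sum_const, smul_eq_mul, mul_comm]

/-- the potential function argument: a positive proportion of weighted matchings avoids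
a given graph of maximum degree at most two -/
theorem potential (ν : ℝ) (hν : 0 < ν) (s : ℕ → ℝ) (hs : ∀ k, 0 ≤ s k)
    (hrec : ∀ k, s (k + 2) = ν * s (k + 1) + (k + 1) * s k)
    (c : ℝ) (hc0 : 0 ≤ c) (hc : ∀ n < 40, 9 * c * s n ≤ ν ^ n)
    (G : SimpleGraph V) [DecidableRel G.Adj] :
    ∀ (k : ℕ) (U : Finset V), U.card = k → (∀ v ∈ U, dg G U v ≤ 2) →
      c * s k * (3 * k - e2 G U) ^ 2 ≤ (k:ℝ) ^ 2 * N G.Adj (fun _ => ν) U := by
  intro k
  induction k using Nat.strong_induction_on with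
  | _ k ih =>
    intro U hU hdeg
    have he2 : (e2 G U : ℝ) ≤ 2 * k := by
      have := e2_le G U hdeg
      rw [hU] at this
      exact_mod_cast this
    have he0 : (0:ℝ) ≤ e2 G U := Nat.cast_nonneg _
    by_cases hk : k < 40
    · have h1 := pow_le_N ν hν G.Adj U
      rw [hU] at h1
      have h2 := hc k hk
      have h3 : (3 * (k:ℝ) - e2 G U) ^ 2 ≤ 9 * (k:ℝ) ^ 2 := by
        have hk0 : (0:ℝ) ≤ k := Nat.cast_nonneg _
        nlinarith
      have h4 : 0 ≤ c * s k := mul_nonneg hc0 (hs k)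
      calc c * s k * (3 * k - e2 G U) ^ 2 ≤ c * s k * (9 * (k:ℝ) ^ 2) :=
            mul_le_mul_of_nonneg_left h3 h4
        _ = (k:ℝ) ^ 2 * (9 * c * s k) := by ring
        _ ≤ (k:ℝ) ^ 2 * N G.Adj (fun _ => ν) U :=
            mul_le_mul_of_nonneg_left (h2.trans h1) (by positivity)
    push Not at hk
    obtain ⟨j, rfl⟩ : ∃ j, k = j + 2 := ⟨k - 2, by omega⟩
    -- choice of the vertex
    have hchoice : ∃ v ∈ U, (e2 G U = 0 ∧ dg G U v = 0) ∨ dg G U v = 1 ∨ dg G U v = 2 := by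
      by_cases h0 : e2 G U = 0
      · obtain ⟨v, hv⟩ : U.Nonempty := by rw [← Finset.card_pos]; omega
        refine ⟨v, hv, Or.inl ⟨h0, ?_⟩⟩
        unfold e2 at h0
        exact (Finset.sum_eq_zero_iff.1 h0) v hv
      · unfold e2 at h0
        obtain ⟨v, hv, hv'⟩ := Finset.exists_ne_zero_of_sum_ne_zero h0
        refine ⟨v, hv, Or.inr ?_⟩
        have := hdeg v hv
        omega
    obtain ⟨v, hv, hcase⟩ := hchoice
    set d := dg G U v with hd
    have hrecN := N_rec G.Adj (fun x y h => h.symm) (fun _ => ν) U v hv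
    have hUv : (U.erase v).card = j + 1 := by rw [Finset.card_erase_of_mem hv, hU]; rfl
    have he : e2 G U = e2 G (U.erase v) + 2 * d := e2_erase G U v hv
    have heR : (e2 G (U.erase v) : ℝ) = e2 G U - 2 * d := by
      rw [he]; push_cast; ring
    have hdeg1 : ∀ u ∈ U.erase v, dg G (U.erase v) u ≤ 2 := by
      intro u hu
      have h1 := dg_erase G U v u hv
      have h2 := hdeg u (Finset.mem_of_mem_erase hu)
      omega
    -- first term
    have ih1 := ih (j + 1) (by omega) (U.erase v) hUv hdeg1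
    -- other terms
    set A := (U.erase v).filter (fun u => ¬ G.Adj v u) with hA
    have hAsub : ∀ u ∈ A, u ∈ U.erase v := fun u hu => (Finset.mem_filter.1 hu).1
    have ih2 : ∀ u ∈ A, c * s j * (3 * j - (e2 G U - 2 * d - 2 * dg G (U.erase v) u)) ^ 2 ≤
        (j:ℝ) ^ 2 * N G.Adj (fun _ => ν) ((U.erase v).erase u) := by
      intro u hu
      have hu' := hAsub u hu
      have hcard : ((U.erase v).erase u).card = j := by
        rw [Finset.card_erase_of_mem hu', hUv]; rfl
      have hdeg2 : ∀ x ∈ (U.erase v).erase u, dg G ((U.erase v).erase u) x ≤ 2 := by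
        intro x hx
        have h1 := dg_erase G (U.erase v) u x hu'
        have h2 := hdeg1 x (Finset.mem_of_mem_erase hx)
        omega
      have h3 := ih j (by omega) _ hcard hdeg2
      have h4 := e2_erase G (U.erase v) u hu'
      have h5 : (e2 G ((U.erase v).erase u) : ℝ)
          = e2 G U - 2 * d - 2 * dg G (U.erase v) u := by
        rw [← heR, h4]; push_cast; ring
      rw [h5] at h3
      exact h3
    -- cardinality of A and sum of degrees over A
    have hcardA : (A.card : ℝ) = (j:ℝ) + 1 - d := by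
      have h1 := Finset.card_filter_add_card_filter_not (s := U.erase v) (fun u => G.Adj v u)
      have h2 := sum_adj_erase G U v
      rw [← Finset.card_filter] at h2
      rw [h2, hUv] at h1
      have h3 : d + A.card = j + 1 := h1
      have : ((d + A.card : ℕ) : ℝ) = ((j + 1 : ℕ) : ℝ) := by rw [h3]
      push_cast at this
      linarith
    have hsumA : (e2 G U : ℝ) - 3 * d ≤ ∑ u ∈ A, (dg G (U.erase v) u : ℝ) := by
      have h1 : ∑ u ∈ U.erase v, dg G (U.erase v) u =
          ∑ u ∈ (U.erase v).filter (fun u => G.Adj v u), dg G (U.erase v) u +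
          ∑ u ∈ A, dg G (U.erase v) u := by
        rw [hA, Finset.sum_filter_add_sum_filter_not]
      have h2 : ∑ u ∈ (U.erase v).filter (fun u => G.Adj v u), dg G (U.erase v) u ≤ d := by
        have h3 : ∀ u ∈ (U.erase v).filter (fun u => G.Adj v u), dg G (U.erase v) u ≤ 1 := by
          intro u hu
          rw [Finset.mem_filter] at hu
          have h4 := dg_erase G U v u hv
          rw [if_pos hu.2] at h4
          have h5 := hdeg u (Finset.mem_of_mem_erase hu.1)
          omega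
        refine (Finset.sum_le_sum h3).trans (le_of_eq ?_)
        rw [← Finset.card_eq_sum_ones, Finset.card_filter, sum_adj_erase]
      have h6 : e2 G (U.erase v) ≤ d + ∑ u ∈ A, dg G (U.erase v) u := by
        have : e2 G (U.erase v) = ∑ u ∈ U.erase v, dg G (U.erase v) u := rfl
        rw [this, h1]; omega
      have h7 : (e2 G (U.erase v) : ℝ) ≤ d + ∑ u ∈ A, (dg G (U.erase v) u : ℝ) := by
        exact_mod_cast h6
      rw [heR] at h7
      linarith
    -- notation
    set e : ℝ := (e2 G U : ℝ) with hedef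
    set n : ℝ := ((j + 2 : ℕ) : ℝ) with hn
    have hnj : n = j + 2 := by rw [hn]; push_cast; ring
    have hj38 : (38:ℝ) ≤ j := by
      have : 38 ≤ j := by omega
      exact_mod_cast this
    have hn40 : 40 ≤ n := by rw [hnj]; linarith
    set D : ℝ := (d : ℝ) with hD
    set P0 : ℝ := 3 * j - e + 2 * D with hP0
    have hD0 : 0 ≤ D := Nat.cast_nonneg _
    have hP0pos : 0 ≤ P0 := by rw [hP0, ]; linarith
    have hsj : 0 ≤ c * s j := mul_nonneg hc0 (hs j)
    have hsj1 : 0 ≤ c * s (j + 1) := mul_nonneg hc0 (hs _)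
    have hQ1 : n ≤ 3 * n - e := by linarith
    have hQ2 : 3 * n - e ≤ 3 * n := by linarith
    have hpoly : (n - 1) * (n - 2) ^ 2 * (3 * n - e) ^ 2 ≤
        ((j + 1 - D) * P0 ^ 2 + 4 * P0 * (e - 3 * D)) * n ^ 2 := by
      rcases hcase with ⟨h0, h0'⟩ | h1 | h2
      · have e0 : e = 0 := by rw [hedef, h0]; simp
        have D0 : D = 0 := by rw [hD, h0']; simp
        rw [hP0, e0, D0, hnj]
        apply le_of_eq; ring
      · have D1 : D = 1 := by rw [hD, h1]; simp
        have := poly1 n (3 * n - e) hn40 hQ1 hQ2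
        rw [hP0, D1]
        refine this.trans (le_of_eq ?_)
        rw [hnj]; ring
      · have D1 : D = 2 := by rw [hD, h2]; simp
        have := poly2 n (3 * n - e) hn40 hQ1 hQ2
        rw [hP0, D1]
        refine this.trans (le_of_eq ?_)
        rw [hnj]; ring
    -- sum over A
    have hsumsq : (j + 1 - D) * P0 ^ 2 + 4 * P0 * (e - 3 * D) ≤
        ∑ u ∈ A, (3 * (j:ℝ) - (e - 2 * D - 2 * dg G (U.erase v) u)) ^ 2 := by
      have h1 : ∀ u ∈ A, P0 ^ 2 + 4 * P0 * (dg G (U.erase v) u : ℝ) ≤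
          (3 * (j:ℝ) - (e - 2 * D - 2 * dg G (U.erase v) u)) ^ 2 := by
        intro u _
        rw [hP0]
        nlinarith [sq_nonneg (dg G (U.erase v) u : ℝ)]
      refine le_trans ?_ (Finset.sum_le_sum h1)
      rw [Finset.sum_add_distrib, Finset.sum_const, nsmul_eq_mul, hcardA, ← Finset.mul_sum]
      have := mul_le_mul_of_nonneg_left hsumA (by positivity : 0 ≤ 4 * P0)
      linarith
    have hj2pos : (0:ℝ) < (j:ℝ) ^ 2 := by positivity
    have hsumN : c * s j * ((j + 1 - D) * P0 ^ 2 + 4 * P0 * (e - 3 * D)) ≤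
        (j:ℝ) ^ 2 * ∑ u ∈ A, N G.Adj (fun _ => ν) ((U.erase v).erase u) := by
      rw [Finset.mul_sum]
      refine le_trans (mul_le_mul_of_nonneg_left hsumsq hsj) ?_
      rw [Finset.mul_sum]
      exact Finset.sum_le_sum ih2
    have hsecond : c * s j * ((n - 1) * (3 * n - e) ^ 2) ≤
        n ^ 2 * ∑ u ∈ A, N G.Adj (fun _ => ν) ((U.erase v).erase u) := by
      have h1 := mul_le_mul_of_nonneg_left hpoly hsj
      have h2 := mul_le_mul_of_nonneg_right hsumN (sq_nonneg n)
      have h3 : (j:ℝ) ^ 2 * (c * s j * ((n - 1) * (3 * n - e) ^ 2)) ≤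
          (j:ℝ) ^ 2 * (n ^ 2 * ∑ u ∈ A, N G.Adj (fun _ => ν) ((U.erase v).erase u)) := by
        have hjn : (j:ℝ) = n - 2 := by rw [hnj]; ring
        have e1 : (j:ℝ) ^ 2 * (c * s j * ((n - 1) * (3 * n - e) ^ 2))
            = c * s j * ((n - 1) * (n - 2) ^ 2 * (3 * n - e) ^ 2) := by
          rw [← hjn]; ring
        rw [e1]
        refine h1.trans (le_trans (le_of_eq ?_) (h2.trans (le_of_eq ?_)))
        · ring
        · ring
      exact le_of_mul_le_mul_left h3 hj2pos
    have hfirst : c * s (j + 1) * (3 * n - e) ^ 2 ≤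
        n ^ 2 * N G.Adj (fun _ => ν) (U.erase v) := by
      have hj1 : (((j + 1 : ℕ)) : ℝ) = n - 1 := by rw [hnj]; push_cast; ring
      rw [hj1, heR] at ih1
      have h0 : e ≤ 2 * n * D := by
        rcases hcase with ⟨h0, h0'⟩ | h1 | h2
        · have e0 : e = 0 := by rw [hedef, h0]; simp
          rw [e0]; positivity
        · have D1 : D = 1 := by rw [hD, h1]; simp
          rw [D1]; linarith
        · have D1 : D = 2 := by rw [hD, h2]; simp
          rw [D1]; linarith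
      have h1 : (n - 1) * (3 * n - e) ≤ n * (3 * (n - 1) - (e - 2 * D)) := by nlinarith
      have h2 : ((n - 1) * (3 * n - e)) ^ 2 ≤ (n * (3 * (n - 1) - (e - 2 * D))) ^ 2 :=
        pow_le_pow_left₀ (mul_nonneg (by linarith) (by linarith)) h1 2
      have h3 := mul_le_mul_of_nonneg_left h2 hsj1
      have h4 := mul_le_mul_of_nonneg_right ih1 (sq_nonneg n)
      have h5 : (0:ℝ) < (n - 1) ^ 2 := by
        have : 0 < n - 1 := by linarith
        positivity
      apply le_of_mul_le_mul_left _ h5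
      calc (n - 1) ^ 2 * (c * s (j + 1) * (3 * n - e) ^ 2)
          = c * s (j + 1) * ((n - 1) * (3 * n - e)) ^ 2 := by ring
        _ ≤ c * s (j + 1) * (n * (3 * (n - 1) - (e - 2 * D))) ^ 2 := h3
        _ = c * s (j + 1) * (3 * (n - 1) - (e - 2 * D)) ^ 2 * n ^ 2 := by ring
        _ ≤ (n - 1) ^ 2 * N G.Adj (fun _ => ν) (U.erase v) * n ^ 2 := h4
        _ = _ := by ring
    rw [hrecN, hrec]
    have hfirst' := mul_le_mul_of_nonneg_left hfirst hν.le
    have hn1 : n - 1 = j + 1 := by rw [hnj]; ring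
    rw [hn1] at hsecond
    calc c * (ν * s (j + 1) + (j + 1) * s j) * (3 * n - e) ^ 2
        = ν * (c * s (j + 1) * (3 * n - e) ^ 2) + c * s j * ((j + 1) * (3 * n - e) ^ 2) := by ring
      _ ≤ ν * (n ^ 2 * N G.Adj (fun _ => ν) (U.erase v)) +
          n ^ 2 * ∑ u ∈ A, N G.Adj (fun _ => ν) ((U.erase v).erase u) :=
          add_le_add hfirst' hsecond
      _ = _ := by ring

end Pool.Agent.Results.MP_c4b7b1_co.ClassTwoNotTypical.Inv
end

section
open Equiv MeasureTheory ProbabilityTheory Real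

namespace Pool.Agent.Results.MP_c4b7b1_co.ClassTwoNotTypical.Inv

open Pool.Agent.Results.MP_c4b7b1_co.ClassTwoNotTypical.Gauss

/-- weighted involution numbers as Gaussian integrals -/
noncomputable def T (ν : ℝ) (n : ℕ) : ℝ := ∫ z, (ν + z) ^ n ∂gam

lemma T_zero (ν : ℝ) : T ν 0 = 1 := by simp [T]

lemma T_one (ν : ℝ) : T ν 1 = ν := by
  unfold T
  have h : Integrable (fun z : ℝ => z) gam := by simpa using integrable_pow 1
  simp only [pow_one]
  rw [integral_add (integrable_const _) h]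
  have h1 : ∫ z, z ∂gam = 0 := by
    have := m_one
    simpa [m] using this
  rw [h1]; simp

lemma integrable_exp_add_pow (ν : ℝ) (k n : ℕ) :
    Integrable (fun z : ℝ => z ^ k * (ν + z) ^ n * rexp (-z ^ 2 / 2)) := by
  have : (fun z : ℝ => z ^ k * (ν + z) ^ n * rexp (-z ^ 2 / 2)) =
      fun z : ℝ => ∑ i ∈ Finset.range (n + 1),
        (ν ^ i * (n.choose i)) * (z ^ (k + (n - i)) * rexp (-z ^ 2 / 2)) := by
    ext z
    rw [add_pow, Finset.mul_sum, Finset.sum_mul]
    refine Finset.sum_congr rfl fun i _ => by rw [pow_add]; ring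
  rw [this]
  exact integrable_finsetSum _ fun i _ => (integrable_pow_exp _).const_mul _

lemma T_rec (ν : ℝ) (k : ℕ) : T ν (k + 2) = ν * T ν (k + 1) + (k + 1) * T ν k := by
  unfold T
  rw [integral_gam, integral_gam, integral_gam]
  have key : ∫ x : ℝ, (ν + x) ^ (k + 1) * (x * rexp (-x ^ 2 / 2))
      = ∫ x : ℝ, ((k + 1 : ℕ) * (ν + x) ^ k) * rexp (-x ^ 2 / 2) := by
    have h := integral_mul_deriv_eq_deriv_mul_of_integrable
      (u := fun x : ℝ => (ν + x) ^ (k + 1)) (v := fun x : ℝ => -rexp (-x ^ 2 / 2))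
      (u' := fun x => ((k + 1 : ℕ) : ℝ) * (ν + x) ^ k) (v' := fun x => x * rexp (-x ^ 2 / 2))
      (fun x _ => by
        have := ((hasDerivAt_id x).const_add ν).fun_pow (k + 1)
        exact this.congr_deriv (by simp))
      (fun x _ => by
        have h1 : HasDerivAt (fun x : ℝ => -x ^ 2 / 2) (-x) x := by
          have := ((hasDerivAt_pow 2 x).fun_neg).div_const 2
          exact this.congr_deriv (by norm_num; ring)
        have h2 := (h1.exp).fun_neg
        exact h2.congr_deriv (by ring))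
      ?_ ?_ ?_
    · rw [h, ← integral_neg]
      congr 1; ext x; simp
    · refine (integrable_exp_add_pow ν 1 (k + 1)).congr ?_
      filter_upwards with x
      simp only [Pi.mul_apply]
      ring
    · refine ((integrable_exp_add_pow ν 0 k).const_mul (-((k + 1 : ℕ) : ℝ))).congr ?_
      filter_upwards with x
      simp only [Pi.mul_apply]
      ring
    · refine (integrable_exp_add_pow ν 0 (k + 1)).neg.congr ?_
      filter_upwards with x
      simp only [Pi.mul_apply, Pi.neg_apply]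
      ring
  have e1 : ∫ x : ℝ, rexp (-x ^ 2 / 2) * (ν + x) ^ (k + 2)
      = ν * (∫ x : ℝ, rexp (-x ^ 2 / 2) * (ν + x) ^ (k + 1)) +
        ∫ x : ℝ, (ν + x) ^ (k + 1) * (x * rexp (-x ^ 2 / 2)) := by
    rw [← integral_const_mul, ← integral_add]
    · congr 1; ext x; ring
    · refine ((integrable_exp_add_pow ν 0 (k + 1)).const_mul ν).congr ?_
      filter_upwards with x
      ring
    · refine (integrable_exp_add_pow ν 1 (k + 1)).congr ?_
      filter_upwards with x
      ring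
  have e2 : ∫ x : ℝ, ((k + 1 : ℕ) * (ν + x) ^ k) * rexp (-x ^ 2 / 2)
      = (k + 1) * ∫ x : ℝ, rexp (-x ^ 2 / 2) * (ν + x) ^ k := by
    rw [← integral_const_mul]
    congr 1; ext x; push_cast; ring
  rw [e1, key, e2]
  ring

lemma T_nonneg (ν : ℝ) (hν : 0 ≤ ν) : ∀ k, 0 ≤ T ν k
  | 0 => by rw [T_zero]; norm_num
  | 1 => by rw [T_one]; exact hν
  | (k + 2) => by
    rw [T_rec]
    have h1 := T_nonneg ν hν (k + 1)
    have h2 := T_nonneg ν hν k
    positivity

/-- weighted number of all involutions -/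
lemma N_bot_T (ν : ℝ) {V : Type*} [Fintype V] [DecidableEq V] (U : Finset V) :
    N (fun _ _ => False) (fun _ => ν) U = T ν U.card :=
  N_bot_eq ν (T ν) (T_zero ν) (T_one ν) (T_rec ν) U.card U rfl

/-- a positive proportion avoids a graph of maximum degree at most two -/
theorem avoid (ν : ℝ) (hν : 0 < ν) : ∃ c : ℝ, 0 < c ∧ ∀ (V : Type) [Fintype V] [DecidableEq V]
    (G : SimpleGraph V) [DecidableRel G.Adj], (∀ v, dg G Finset.univ v ≤ 2) →
    c * T ν (Fintype.card V) ≤ N G.Adj (fun _ => ν) Finset.univ := by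
  have hnn := T_nonneg ν hν.le
  set B : ℝ := 1 + ∑ n ∈ Finset.range 40, T ν n / ν ^ n with hB
  have hB1 : 1 ≤ B := by
    rw [hB]
    have : 0 ≤ ∑ n ∈ Finset.range 40, T ν n / ν ^ n :=
      Finset.sum_nonneg fun n _ => div_nonneg (hnn n) (by positivity)
    linarith
  have hBpos : 0 < B := by linarith
  refine ⟨1 / (9 * B), by positivity, ?_⟩
  intro V _ _ G _ hdeg
  have hc : ∀ n < 40, 9 * (1 / (9 * B)) * T ν n ≤ ν ^ n := by
    intro n hn
    have h1 : T ν n / ν ^ n ≤ B := by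
      rw [hB]
      have : T ν n / ν ^ n ≤ ∑ n ∈ Finset.range 40, T ν n / ν ^ n :=
        Finset.single_le_sum (f := fun n => T ν n / ν ^ n)
          (fun n _ => div_nonneg (hnn n) (by positivity)) (Finset.mem_range.2 hn)
      linarith
    rw [div_le_iff₀ (by positivity)] at h1
    have h2 : 9 * (1 / (9 * B)) * T ν n = T ν n / B := by field_simp
    rw [h2, div_le_iff₀ hBpos]
    linarith
  have h := potential ν hν (T ν) hnn (T_rec ν) (1 / (9 * B)) (by positivity) hc G
    (Fintype.card V) Finset.univ Finset.card_univ (fun v _ => hdeg v)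
  rcases Nat.eq_zero_or_pos (Fintype.card V) with h0 | hpos
  · rw [h0, T_zero]
    have h1 := pow_le_N ν hν G.Adj (Finset.univ : Finset V)
    rw [Finset.card_univ, h0, pow_zero] at h1
    refine le_trans ?_ h1
    rw [mul_one, div_le_one (by positivity)]
    linarith
  · set k : ℝ := (Fintype.card V : ℝ) with hk
    have hkpos : 0 < k := by rw [hk]; exact_mod_cast hpos
    have he := e2_le G Finset.univ (fun v _ => hdeg v)
    rw [Finset.card_univ] at he
    have heR : (e2 G Finset.univ : ℝ) ≤ 2 * k := by rw [hk]; exact_mod_cast he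
    have h1 : k ^ 2 ≤ (3 * k - e2 G Finset.univ) ^ 2 := by
      have : k ≤ 3 * k - e2 G Finset.univ := by linarith
      exact pow_le_pow_left₀ hkpos.le this 2
    have h2 := mul_le_mul_of_nonneg_left h1
      (mul_nonneg (by positivity : 0 ≤ 1 / (9 * B)) (hnn (Fintype.card V)))
    have h3 : k ^ 2 * (1 / (9 * B) * T ν (Fintype.card V)) ≤
        k ^ 2 * N G.Adj (fun _ => ν) Finset.univ := by linarith
    exact le_of_mul_le_mul_left h3 (by positivity)

end Pool.Agent.Results.MP_c4b7b1_co.ClassTwoNotTypical.Inv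
end

section
open Equiv MeasureTheory ProbabilityTheory Real

namespace Pool.Agent.Results.MP_c4b7b1_co.ClassTwoNotTypical.Inv

open Pool.Agent.Results.MP_c4b7b1_co.ClassTwoNotTypical.Gauss

variable {C : Type} [Fintype C] [DecidableEq C] {V : Type} [Fintype V] [DecidableEq V]

/-- families of involutions indexed by `C` -/
def Fam (C V : Type) [Fintype C] [DecidableEq C] [Fintype V] [DecidableEq V] :
    Finset (C → Perm V) :=
  Finset.univ.filter fun A => ∀ c x, A c (A c x) = x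

/-- the set of indices moving `v` -/
def ty (A : C → Perm V) (v : V) : Finset C := Finset.univ.filter fun c => A c v ≠ v

lemma card_fiber (φ : V → Finset C) :
    (((Fam C V).filter fun A => ty A = φ).card : ℝ) =
      ∏ c, m (Finset.univ.filter fun v => c ∈ φ v).card := by
  have hset : (Fam C V).filter (fun A => ty A = φ) =
      Fintype.piFinset fun c => Finset.univ.filter fun σ : Perm V =>
        (∀ x, σ (σ x) = x) ∧ ∀ x, σ x ≠ x ↔ x ∈ (Finset.univ.filter fun v => c ∈ φ v) := by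
    ext A
    rw [Finset.mem_filter, Fintype.mem_piFinset, Fam, Finset.mem_filter]
    simp only [Finset.mem_filter, Finset.mem_univ, true_and]
    constructor
    · rintro ⟨h1, h2⟩ c
      refine ⟨h1 c, ?_⟩
      intro x
      rw [← h2, ty, Finset.mem_filter]
      simp
    · intro h
      refine ⟨fun c => (h c).1, ?_⟩
      ext v c
      rw [ty, Finset.mem_filter]
      simp only [Finset.mem_univ, true_and]
      exact (h c).2 v
  rw [hset, Fintype.card_piFinset, Nat.cast_prod]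
  apply Finset.prod_congr rfl
  intro c _
  exact card_exact m m_zero m_one m_rec _

omit [DecidableEq V] in
lemma prod_ty_eq (φ : V → Finset C) (z : C → ℝ) :
    ∏ v, ∏ c ∈ φ v, z c = ∏ c, z c ^ (Finset.univ.filter fun v => c ∈ φ v).card := by
  have h1 : ∀ v, ∏ c ∈ φ v, z c = ∏ c, (if c ∈ φ v then z c else 1) := by
    intro v
    rw [Finset.prod_ite_mem, Finset.univ_inter]
  simp_rw [h1]
  rw [Finset.prod_comm]
  apply Finset.prod_congr rfl
  intro c _
  rw [Finset.prod_ite, Finset.prod_const_one, mul_one, Finset.prod_const]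

/-- generating function identity -/
theorem gf (w : Finset C → ℝ) :
    ∑ A ∈ Fam C V, ∏ v, w (ty A v) =
      ∫ z : C → ℝ, (∑ t : Finset C, w t * ∏ c ∈ t, z c) ^ Fintype.card V
        ∂(Measure.pi fun _ : C => gam) := by
  have hL : ∑ A ∈ Fam C V, ∏ v, w (ty A v) =
      ∑ φ : V → Finset C, (∏ v, w (φ v)) * ∏ c, m (Finset.univ.filter fun v => c ∈ φ v).card := by
    rw [← Finset.sum_fiberwise (Fam C V) (fun A => ty A)]
    apply Finset.sum_congr rfl
    intro φ _
    rw [← card_fiber φ, mul_comm, ← nsmul_eq_mul, ← Finset.sum_const]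
    apply Finset.sum_congr rfl
    intro A hA
    rw [← (Finset.mem_filter.1 hA).2]
  have hR : ∀ z : C → ℝ, (∑ t : Finset C, w t * ∏ c ∈ t, z c) ^ Fintype.card V =
      ∑ φ : V → Finset C, (∏ v, w (φ v)) *
        ∏ c, z c ^ (Finset.univ.filter fun v => c ∈ φ v).card := by
    intro z
    rw [← Finset.card_univ, ← Finset.prod_const, Finset.prod_univ_sum, Fintype.piFinset_univ]
    apply Finset.sum_congr rfl
    intro φ _
    rw [Finset.prod_mul_distrib, prod_ty_eq]
  rw [hL]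
  simp_rw [hR]
  rw [integral_finsetSum]
  · apply Finset.sum_congr rfl
    intro φ _
    rw [integral_const_mul, integral_prod_pow]
  · intro φ _
    exact (integrable_prod_pow _).const_mul _

/-- weight attached to a set of cells of the 3 x 3 board -/
noncomputable def wt9 (μ : ℝ) (t : Finset (Fin 3 × Fin 3)) : ℝ :=
  ∑ p : Perm (Fin 3), if t ⊆ Finset.univ.image (fun i => (i, p i)) then μ ^ (3 - t.card) else 0

lemma wt9_gf (μ : ℝ) (z : Fin 3 × Fin 3 → ℝ) :
    ∑ t : Finset (Fin 3 × Fin 3), wt9 μ t * ∏ c ∈ t, z c = Q9 μ z := by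
  unfold wt9 Q9
  simp_rw [Finset.sum_mul]
  rw [Finset.sum_comm]
  apply Finset.sum_congr rfl
  intro p _
  set s : Finset (Fin 3 × Fin 3) := Finset.univ.image (fun i => (i, p i)) with hs
  have hinj : Function.Injective (fun i : Fin 3 => (i, p i)) := by
    intro a b h
    exact (Prod.mk.inj h).1
  have hcard : s.card = 3 := by
    rw [hs, Finset.card_image_of_injective _ hinj]; simp
  have h1 : ∏ i, (z (i, p i) + μ) = ∏ c ∈ s, (z c + μ) := by
    rw [hs, Finset.prod_image (fun a _ b _ h => hinj h)]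
  rw [h1, Finset.prod_add]
  simp_rw [ite_mul, zero_mul]
  rw [← Finset.sum_filter]
  have h2 : (Finset.univ.filter fun t : Finset (Fin 3 × Fin 3) => t ⊆ s) = s.powerset := by
    ext t; simp
  rw [h2]
  apply Finset.sum_congr rfl
  intro t ht
  rw [Finset.prod_const, Finset.card_sdiff_of_subset (Finset.mem_powerset.1 ht), hcard, mul_comm]

theorem gf9 (μ : ℝ) :
    ∑ A ∈ Fam (Fin 3 × Fin 3) V, ∏ v, wt9 μ (ty A v) =
      ∫ z, (Q9 μ z) ^ Fintype.card V ∂(Measure.pi fun _ : Fin 3 × Fin 3 => gam) := by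
  rw [gf]
  simp_rw [wt9_gf]

lemma wt9_nonneg (μ : ℝ) (hμ : 0 < μ) (t : Finset (Fin 3 × Fin 3)) : 0 ≤ wt9 μ t := by
  unfold wt9
  apply Finset.sum_nonneg
  intro p _
  split_ifs
  · positivity
  · norm_num

/-- every partial permutation extends to a permutation -/
lemma extend_perm {α : Type} [Fintype α] [DecidableEq α] (t : Finset (α × α))
    (h1 : ∀ a ∈ t, ∀ b ∈ t, a.1 = b.1 → a = b)
    (h2 : ∀ a ∈ t, ∀ b ∈ t, a.2 = b.2 → a = b) :
    ∃ p : Perm α, t ⊆ Finset.univ.image (fun i => (i, p i)) := by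
  classical
  let P : α → Prop := fun x => ∃ y, (x, y) ∈ t
  let R : α → Prop := fun y => ∃ x, (x, y) ∈ t
  let f : {x // P x} → {y // R y} := fun x => ⟨Classical.choose x.2, x.1, Classical.choose_spec x.2⟩
  have hf : ∀ x : {x // P x}, (x.1, (f x).1) ∈ t := fun x => Classical.choose_spec x.2
  have hbij : Function.Bijective f := by
    constructor
    · intro a b hab
      have ha := hf a
      have hb := hf b
      rw [hab] at ha
      have := h2 _ ha _ hb rfl
      exact Subtype.ext (Prod.mk.inj this).1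
    · rintro ⟨y, x, hxy⟩
      refine ⟨⟨x, y, hxy⟩, ?_⟩
      have ha := hf ⟨x, y, hxy⟩
      have := h1 _ ha _ hxy rfl
      exact Subtype.ext (Prod.mk.inj this).2
  refine ⟨(Equiv.ofBijective f hbij).extendSubtype, ?_⟩
  rintro ⟨x, y⟩ hxy
  rw [Finset.mem_image]
  refine ⟨x, Finset.mem_univ _, ?_⟩
  have hx : P x := ⟨y, hxy⟩
  rw [Equiv.extendSubtype_apply_of_mem _ x hx]
  have ha := hf ⟨x, hx⟩
  exact h1 _ ha _ hxy rfl

lemma le_wt9 (μ : ℝ) (hμ : 0 < μ) (t : Finset (Fin 3 × Fin 3))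
    (h1 : ∀ a ∈ t, ∀ b ∈ t, a.1 = b.1 → a = b)
    (h2 : ∀ a ∈ t, ∀ b ∈ t, a.2 = b.2 → a = b) :
    μ ^ (3 - t.card) ≤ wt9 μ t := by
  obtain ⟨p, hp⟩ := extend_perm t h1 h2
  unfold wt9
  refine le_trans (le_of_eq ?_) (Finset.single_le_sum (f := fun p : Perm (Fin 3) =>
    if t ⊆ Finset.univ.image (fun i => (i, p i)) then μ ^ (3 - t.card) else 0)
    (fun q _ => by
      split_ifs
      · positivity
      · norm_num) (Finset.mem_univ p))
  rw [if_pos hp]

end Pool.Agent.Results.MP_c4b7b1_co.ClassTwoNotTypical.Inv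
end

section
open Equiv MeasureTheory ProbabilityTheory Real

namespace Pool.Agent.Results.MP_c4b7b1_co.ClassTwoNotTypical.Inv

open Pool.Agent.Results.MP_c4b7b1_co.ClassTwoNotTypical.Gauss

variable {V : Type} [Fintype V] [DecidableEq V]

/-- ordered triples of pairwise disjoint matchings, coded by involutions -/
def Tri (V : Type) [Fintype V] [DecidableEq V] : Finset (Fin 3 → Perm V) :=
  Finset.univ.filter fun M => (∀ i x, M i (M i x) = x) ∧
    ∀ i j x, i ≠ j → M i x = M j x → M i x = x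

/-- union graph of a triple -/
def gr (M : Fin 3 → Perm V) : SimpleGraph V := SimpleGraph.fromRel fun x y => ∃ i, M i x = y

omit [DecidableEq V] [Fintype V] in
lemma gr_adj (M : Fin 3 → Perm V) (hM : ∀ i x, M i (M i x) = x) (x y : V) :
    (gr M).Adj x y ↔ x ≠ y ∧ ∃ i, M i x = y := by
  rw [gr, SimpleGraph.fromRel_adj]
  constructor
  · rintro ⟨h1, h2 | ⟨i, hi⟩⟩
    · exact ⟨h1, h2⟩
    · refine ⟨h1, i, ?_⟩
      rw [← hi]; exact hM i y
  · rintro ⟨h1, h2⟩
    exact ⟨h1, Or.inl h2⟩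

/-- degree of a vertex, with classical decidability -/
noncomputable def gdeg (G : SimpleGraph V) (v : V) : ℕ := by
  classical
  exact (Finset.univ.filter fun u => G.Adj v u).card

/-- number of colours at a vertex -/
def dM (M : Fin 3 → Perm V) (v : V) : ℕ := (Finset.univ.filter fun i => M i v ≠ v).card

lemma dM_eq (M : Fin 3 → Perm V) (hM : M ∈ Tri V) (v : V) : gdeg (gr M) v = dM M v := by
  classical
  rw [Tri, Finset.mem_filter] at hM
  obtain ⟨_, h1, h2⟩ := hM
  unfold gdeg dM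
  symm
  apply Finset.card_bij (fun i _ => M i v)
  · intro i hi
    rw [Finset.mem_filter] at hi ⊢
    refine ⟨Finset.mem_univ _, ?_⟩
    rw [gr_adj M h1]
    exact ⟨fun h => hi.2 h.symm, i, rfl⟩
  · intro i hi j hj hij
    rw [Finset.mem_filter] at hi
    by_contra hne
    exact hi.2 (h2 i j v hne hij)
  · intro u hu
    rw [Finset.mem_filter, gr_adj M h1] at hu
    obtain ⟨_, hne, i, hi⟩ := hu
    refine ⟨i, ?_, hi⟩
    rw [Finset.mem_filter]
    refine ⟨Finset.mem_univ _, ?_⟩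
    rw [hi]; exact hne.symm

omit [Fintype V] in
lemma dM_le (M : Fin 3 → Perm V) (v : V) : dM M v ≤ 3 := by
  unfold dM
  refine (Finset.card_filter_le _ _).trans ?_
  simp

/-- graph weight -/
noncomputable def gw (l : ℝ) (G : SimpleGraph V) : ℝ := ∏ v, l ^ (3 - gdeg G v)

/-- the common refinement of two triples -/
noncomputable def ref (M N : Fin 3 → Perm V) (c : Fin 3 × Fin 3) : Perm V := by
  classical
  exact if h : Function.Involutive (fun v => if M c.1 v = N c.2 v then M c.1 v else v)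
    then h.toPerm else 1

omit [Fintype V] in
lemma ref_apply (M N : Fin 3 → Perm V) (hM : ∀ i x, M i (M i x) = x)
    (hN : ∀ i x, N i (N i x) = x) (c : Fin 3 × Fin 3) (v : V) :
    ref M N c v = if M c.1 v = N c.2 v then M c.1 v else v := by
  have h : Function.Involutive (fun v => if M c.1 v = N c.2 v then M c.1 v else v) := by
    intro x
    dsimp only
    by_cases hx : M c.1 x = N c.2 x
    · rw [if_pos hx, hM, if_pos]
      rw [hx]; exact (hN _ _).symm
    · rw [if_neg hx, if_neg hx]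
  unfold ref
  rw [dif_pos h]
  rfl

lemma mem_ty_ref (M N : Fin 3 → Perm V) (hM : ∀ i x, M i (M i x) = x)
    (hN : ∀ i x, N i (N i x) = x) (v : V) (c : Fin 3 × Fin 3) :
    c ∈ ty (ref M N) v ↔ M c.1 v = N c.2 v ∧ M c.1 v ≠ v := by
  rw [ty, Finset.mem_filter, ref_apply M N hM hN]
  constructor
  · rintro ⟨_, h⟩
    by_cases h' : M c.1 v = N c.2 v
    · rw [if_pos h'] at h; exact ⟨h', h⟩
    · rw [if_neg h'] at h; exact absurd rfl h
  · rintro ⟨h1, h2⟩
    rw [if_pos h1]
    exact ⟨Finset.mem_univ _, h2⟩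

lemma exists_match (M N : Fin 3 → Perm V) (hM : M ∈ Tri V) (hN : N ∈ Tri V)
    (hg : gr M = gr N) (i : Fin 3) (v : V) (h : M i v ≠ v) : ∃ j, N j v = M i v := by
  rw [Tri, Finset.mem_filter] at hM hN
  have h1 : (gr M).Adj v (M i v) := by
    rw [gr_adj M hM.2.1]; exact ⟨fun h' => h h'.symm, i, rfl⟩
  rw [hg, gr_adj N hN.2.1] at h1
  exact h1.2

lemma ref_weight (μ : ℝ) (hμ : 0 < μ) (M N : Fin 3 → Perm V) (hM : M ∈ Tri V) (hN : N ∈ Tri V)
    (hg : gr M = gr N) (v : V) : μ ^ (3 - dM M v) ≤ wt9 μ (ty (ref M N) v) := by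
  have hM' := hM
  have hN' := hN
  rw [Tri, Finset.mem_filter] at hM' hN'
  obtain ⟨_, hM1, hM2⟩ := hM'
  obtain ⟨_, hN1, hN2⟩ := hN'
  have c1 : ∀ a ∈ ty (ref M N) v, ∀ b ∈ ty (ref M N) v, a.1 = b.1 → a = b := by
    intro a ha b hb hab
    rw [mem_ty_ref M N hM1 hN1] at ha hb
    apply Prod.ext hab
    by_contra hne
    have h1 : N a.2 v = N b.2 v := by rw [← ha.1, ← hb.1, hab]
    have h2 := hN2 _ _ v hne h1
    exact ha.2 (ha.1.trans h2)
  have c2 : ∀ a ∈ ty (ref M N) v, ∀ b ∈ ty (ref M N) v, a.2 = b.2 → a = b := by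
    intro a ha b hb hab
    rw [mem_ty_ref M N hM1 hN1] at ha hb
    refine Prod.ext ?_ hab
    by_contra hne
    have h1 : M a.1 v = M b.1 v := by rw [ha.1, hb.1, hab]
    have h2 := hM2 _ _ v hne h1
    exact ha.2 h2
  have hcard : (ty (ref M N) v).card = dM M v := by
    unfold dM
    apply Finset.card_bij (fun a _ => a.1)
    · intro a ha
      rw [mem_ty_ref M N hM1 hN1] at ha
      rw [Finset.mem_filter]
      exact ⟨Finset.mem_univ _, ha.2⟩
    · intro a ha b hb hab
      exact c1 a ha b hb hab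
    · intro i hi
      rw [Finset.mem_filter] at hi
      obtain ⟨j, hj⟩ := exists_match M N hM hN hg i v hi.2
      refine ⟨(i, j), ?_, rfl⟩
      rw [mem_ty_ref M N hM1 hN1]
      exact ⟨hj.symm, hi.2⟩
  rw [← hcard]
  exact le_wt9 μ hμ _ c1 c2

/-- pairs of triples with the same union graph -/
noncomputable def Prs (V : Type) [Fintype V] [DecidableEq V] :
    Finset ((Fin 3 → Perm V) × (Fin 3 → Perm V)) := by
  classical
  exact (Tri V ×ˢ Tri V).filter fun p => gr p.1 = gr p.2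

lemma mem_Prs (p : (Fin 3 → Perm V) × (Fin 3 → Perm V)) :
    p ∈ Prs V ↔ (p.1 ∈ Tri V ∧ p.2 ∈ Tri V) ∧ gr p.1 = gr p.2 := by
  classical
  rw [Prs, Finset.mem_filter, Finset.mem_product]

lemma ref_left (M N M' N' : Fin 3 → Perm V) (hp : (M, N) ∈ Prs V) (hp' : (M', N') ∈ Prs V)
    (h : ref M N = ref M' N') (i : Fin 3) (v : V) (hne : M i v ≠ v) : M' i v = M i v := by
  rw [mem_Prs] at hp hp'
  obtain ⟨⟨hM, hN⟩, hg⟩ := hp
  obtain ⟨⟨hM', hN'⟩, hg'⟩ := hp'
  simp only at hM hN hg hM' hN' hg'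
  obtain ⟨j, hj⟩ := exists_match M N hM hN hg i v hne
  rw [Tri, Finset.mem_filter] at hM hN hM' hN'
  have h1 := ref_apply M N hM.2.1 hN.2.1 (i, j) v
  have h2 := ref_apply M' N' hM'.2.1 hN'.2.1 (i, j) v
  simp only at h1 h2
  rw [if_pos hj.symm] at h1
  rw [← h, h1] at h2
  by_cases h3 : M' i v = N' j v
  · rw [if_pos h3] at h2; exact h2.symm
  · rw [if_neg h3] at h2; exact absurd h2 hne

lemma ref_right (M N M' N' : Fin 3 → Perm V) (hp : (M, N) ∈ Prs V) (hp' : (M', N') ∈ Prs V)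
    (h : ref M N = ref M' N') (j : Fin 3) (v : V) (hne : N j v ≠ v) : N' j v = N j v := by
  rw [mem_Prs] at hp hp'
  obtain ⟨⟨hM, hN⟩, hg⟩ := hp
  obtain ⟨⟨hM', hN'⟩, hg'⟩ := hp'
  simp only at hM hN hg hM' hN' hg'
  obtain ⟨i, hi⟩ := exists_match N M hN hM hg.symm j v hne
  rw [Tri, Finset.mem_filter] at hM hN hM' hN'
  have h1 := ref_apply M N hM.2.1 hN.2.1 (i, j) v
  have h2 := ref_apply M' N' hM'.2.1 hN'.2.1 (i, j) v
  simp only at h1 h2
  rw [if_pos hi, hi] at h1
  rw [← h, h1] at h2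
  by_cases h3 : M' i v = N' j v
  · rw [if_pos h3, h3] at h2; exact h2.symm
  · rw [if_neg h3] at h2; exact absurd h2 hne

lemma ref_injOn : Set.InjOn (fun p : (Fin 3 → Perm V) × (Fin 3 → Perm V) => ref p.1 p.2)
    (Prs V : Set ((Fin 3 → Perm V) × (Fin 3 → Perm V))) := by
  rintro ⟨M, N⟩ hp ⟨M', N'⟩ hp' h
  simp only at h
  rw [Finset.mem_coe] at hp hp'
  refine Prod.ext ?_ ?_
  · funext i
    ext v
    by_cases h1 : M i v = v
    · by_cases h2 : M' i v = v
      · simp only; rw [h1, h2]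
      · exact ref_left M' N' M N hp' hp h.symm i v h2
    · exact (ref_left M N M' N' hp hp' h i v h1).symm
  · funext j
    ext v
    by_cases h1 : N j v = v
    · by_cases h2 : N' j v = v
      · simp only; rw [h1, h2]
      · exact ref_right M' N' M N hp' hp h.symm j v h2
    · exact (ref_right M N M' N' hp hp' h j v h1).symm

/-- second moment bound -/
theorem second_moment (μ : ℝ) (hμ : 0 < μ) :
    ∑ p ∈ Prs V, ∏ v, μ ^ (3 - dM p.1 v) ≤
      ∫ z, (Q9 μ z) ^ Fintype.card V ∂(Measure.pi fun _ : Fin 3 × Fin 3 => gam) := by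
  classical
  rw [← gf9 (V := V) μ]
  have h1 : ∑ p ∈ Prs V, ∏ v, μ ^ (3 - dM p.1 v) ≤
      ∑ p ∈ Prs V, ∏ v, wt9 μ (ty (ref p.1 p.2) v) := by
    apply Finset.sum_le_sum
    rintro ⟨M, N⟩ hp
    apply Finset.prod_le_prod
    · intro v _; positivity
    · intro v _
      rw [mem_Prs] at hp
      exact ref_weight μ hμ M N hp.1.1 hp.1.2 hp.2 v
  refine h1.trans ?_
  rw [← Finset.sum_image (f := fun A => ∏ v, wt9 μ (ty A v)) (ref_injOn)]
  apply Finset.sum_le_sum_of_subset_of_nonneg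
  · intro A hA
    rw [Finset.mem_image] at hA
    obtain ⟨⟨M, N⟩, hp, rfl⟩ := hA
    rw [mem_Prs] at hp
    obtain ⟨⟨hM, hN⟩, -⟩ := hp
    simp only at hM hN
    rw [Tri, Finset.mem_filter] at hM hN
    rw [Fam, Finset.mem_filter]
    refine ⟨Finset.mem_univ _, ?_⟩
    intro c x
    simp only
    rw [ref_apply M N hM.2.1 hN.2.1, ref_apply M N hM.2.1 hN.2.1]
    by_cases hx : M c.1 x = N c.2 x
    · rw [if_pos hx, hM.2.1, if_pos]
      rw [hx]; exact (hN.2.1 _ _).symm
    · rw [if_neg hx, if_neg hx]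
  · intro A _ _
    exact Finset.prod_nonneg fun v _ => wt9_nonneg μ hμ _

/-- graphs that are unions of three pairwise disjoint matchings -/
noncomputable def Cls (V : Type) [Fintype V] [DecidableEq V] : Finset (SimpleGraph V) := by
  classical
  exact (Tri V).image gr

/-- Cauchy-Schwarz -/
theorem cauchy (l μ ν : ℝ) (hl : 0 < l) (hμ : 0 < μ) (_hν : 0 < ν) (h : ν ^ 2 = l * μ) :
    (∑ M ∈ Tri V, ∏ v, ν ^ (3 - dM M v)) ^ 2 ≤
      (∑ G ∈ Cls V, gw l G) * ∑ p ∈ Prs V, ∏ v, μ ^ (3 - dM p.1 v) := by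
  classical
  set k : SimpleGraph V → ℝ := fun G => (((Tri V).filter fun M => gr M = G).card : ℝ) with hk
  have e1 : ∑ M ∈ Tri V, ∏ v, ν ^ (3 - dM M v) = ∑ G ∈ Cls V, k G * gw ν G := by
    have hmaps : ∀ M ∈ Tri V, gr M ∈ Cls V := fun M hM => Finset.mem_image_of_mem _ hM
    rw [← Finset.sum_fiberwise_of_maps_to hmaps]
    apply Finset.sum_congr rfl
    intro G _
    rw [hk]
    simp only
    rw [← nsmul_eq_mul, ← Finset.sum_const]
    apply Finset.sum_congr rfl
    intro M hM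
    rw [Finset.mem_filter] at hM
    unfold gw
    rw [← hM.2]
    apply Finset.prod_congr rfl
    intro v _
    rw [dM_eq M hM.1]
  have e2 : ∑ p ∈ Prs V, ∏ v, μ ^ (3 - dM p.1 v) = ∑ G ∈ Cls V, (k G) ^ 2 * gw μ G := by
    have hmaps : ∀ p ∈ Prs V, gr p.1 ∈ Cls V := by
      intro p hp
      rw [mem_Prs] at hp
      exact Finset.mem_image_of_mem _ hp.1.1
    rw [← Finset.sum_fiberwise_of_maps_to hmaps]
    apply Finset.sum_congr rfl
    intro G _
    have hset : (Prs V).filter (fun p => gr p.1 = G) =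
        ((Tri V).filter fun M => gr M = G) ×ˢ ((Tri V).filter fun M => gr M = G) := by
      ext p
      rw [Finset.mem_filter, mem_Prs, Finset.mem_product, Finset.mem_filter, Finset.mem_filter]
      constructor
      · rintro ⟨⟨⟨a, b⟩, c⟩, d⟩
        exact ⟨⟨a, d⟩, b, c.symm.trans d⟩
      · rintro ⟨⟨a, b⟩, c, d⟩
        exact ⟨⟨⟨a, c⟩, b.trans d.symm⟩, b⟩
    have hc : (k G) ^ 2 = (((Prs V).filter fun p => gr p.1 = G).card : ℝ) := by
      rw [hset, Finset.card_product, hk]; push_cast; ring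
    rw [hc, ← nsmul_eq_mul, ← Finset.sum_const]
    apply Finset.sum_congr rfl
    intro p hp
    rw [Finset.mem_filter, mem_Prs] at hp
    unfold gw
    rw [← hp.2]
    apply Finset.prod_congr rfl
    intro v _
    rw [dM_eq p.1 hp.1.1.1]
  rw [e1, e2]
  apply Finset.sum_sq_le_sum_mul_sum_of_sq_le_mul
  · intro G _
    unfold gw
    exact Finset.prod_nonneg fun v _ => by positivity
  · intro G _
    unfold gw
    exact mul_nonneg (sq_nonneg _) (Finset.prod_nonneg fun v _ => by positivity)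
  · intro G _
    apply le_of_eq
    unfold gw
    rw [mul_pow, ← Finset.prod_pow]
    have : ∏ v, (ν ^ (3 - gdeg G v)) ^ 2 = (∏ v, l ^ (3 - gdeg G v)) * ∏ v, μ ^ (3 - gdeg G v) := by
      rw [← Finset.prod_mul_distrib]
      apply Finset.prod_congr rfl
      intro v _
      rw [← mul_pow, ← h, ← pow_mul, ← pow_mul, mul_comm]
    rw [this]; ring

end Pool.Agent.Results.MP_c4b7b1_co.ClassTwoNotTypical.Inv
end

section
open Equiv MeasureTheory ProbabilityTheory Real

namespace Pool.Agent.Results.MP_c4b7b1_co.ClassTwoNotTypical.Inv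

open Pool.Agent.Results.MP_c4b7b1_co.ClassTwoNotTypical.Gauss

variable {V : Type} [Fintype V] [DecidableEq V]

/-- weight of a single matching -/
noncomputable def W (ν : ℝ) (σ : Perm V) : ℝ := ∏ x, (if σ x = x then ν else 1)

lemma W_nonneg (ν : ℝ) (hν : 0 < ν) (σ : Perm V) : 0 ≤ W ν σ :=
  Finset.prod_nonneg fun x _ => by split_ifs <;> [exact hν.le; norm_num]

/-- graph of a matching -/
def g1 (σ : Perm V) : SimpleGraph V := SimpleGraph.fromRel fun x y => σ x = y

lemma weight_eq (ν : ℝ) (M : Fin 3 → Perm V) :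
    ∏ v, ν ^ (3 - dM M v) = W ν (M 0) * W ν (M 1) * W ν (M 2) := by
  unfold W
  rw [← Finset.prod_mul_distrib, ← Finset.prod_mul_distrib]
  apply Finset.prod_congr rfl
  intro v _
  have h1 : 3 - dM M v = (Finset.univ.filter fun i => M i v = v).card := by
    have h := Finset.card_filter_add_card_filter_not (s := (Finset.univ : Finset (Fin 3)))
      (fun i => M i v = v)
    rw [Finset.card_univ, Fintype.card_fin] at h
    unfold dM
    simp only [ne_eq]
    omega
  rw [h1, ← Finset.prod_const, Finset.prod_filter, Fin.prod_univ_three]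

omit [DecidableEq V] in
lemma dg_g1 (σ : Perm V) (h : ∀ x, σ (σ x) = x) [DecidableRel (g1 σ).Adj] (v : V) :
    dg (g1 σ) Finset.univ v ≤ 2 := by
  unfold dg
  have : (Finset.univ.filter fun u => (g1 σ).Adj v u) ⊆ {σ v} := by
    intro u hu
    rw [Finset.mem_filter, g1, SimpleGraph.fromRel_adj] at hu
    rw [Finset.mem_singleton]
    rcases hu.2.2 with h1 | h1
    · exact h1.symm
    · rw [← h1]; exact (h u).symm
  have h2 := Finset.card_le_card this
  rw [Finset.card_singleton] at h2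
  omega

lemma dg_g2 (σ τ : Perm V) (h : ∀ x, σ (σ x) = x) (h' : ∀ x, τ (τ x) = x)
    [DecidableRel (g1 σ ⊔ g1 τ).Adj] (v : V) :
    dg (g1 σ ⊔ g1 τ) Finset.univ v ≤ 2 := by
  unfold dg
  have : (Finset.univ.filter fun u => (g1 σ ⊔ g1 τ).Adj v u) ⊆ {σ v, τ v} := by
    intro u hu
    rw [Finset.mem_filter, SimpleGraph.sup_adj, g1, g1, SimpleGraph.fromRel_adj,
      SimpleGraph.fromRel_adj] at hu
    rw [Finset.mem_insert, Finset.mem_singleton]
    rcases hu.2 with ⟨_, h1 | h1⟩ | ⟨_, h1 | h1⟩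
    · left; exact h1.symm
    · left; rw [← h1]; exact (h u).symm
    · right; exact h1.symm
    · right; rw [← h1]; exact (h' u).symm
  have h2 := Finset.card_le_card this
  have h3 : ({σ v, τ v} : Finset V).card ≤ 2 := Finset.card_le_two
  omega

lemma N_univ (F : V → V → Prop) (ν : ℝ) :
    N F (fun _ => ν) Finset.univ = ∑ σ ∈ S F Finset.univ, W ν σ := rfl

theorem first_moment (ν : ℝ) (hν : 0 < ν) : ∃ c : ℝ, 0 < c ∧
    ∀ (V : Type) [Fintype V] [DecidableEq V],
      c * (T ν (Fintype.card V)) ^ 3 ≤ ∑ M ∈ Tri V, ∏ v, ν ^ (3 - dM M v) := by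
  obtain ⟨c, hc, hav⟩ := avoid ν hν
  refine ⟨c ^ 2, by positivity, ?_⟩
  intro V _ _
  classical
  set t := T ν (Fintype.card V) with ht
  have ht0 : 0 ≤ t := T_nonneg ν hν.le _
  have hinv : ∀ (F : V → V → Prop) (σ : Perm V), σ ∈ S F Finset.univ → ∀ x, σ (σ x) = x := by
    intro F σ h
    rw [mem_S] at h
    exact h.1
  set P : Finset (Σ _ : Perm V, Σ _ : Perm V, Perm V) :=
    (S (fun _ _ => False) Finset.univ).sigma fun σ => (S (g1 σ).Adj Finset.univ).sigma fun τ =>
      S (g1 σ ⊔ g1 τ).Adj Finset.univ with hP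
  set f : (Σ _ : Perm V, Σ _ : Perm V, Perm V) → (Fin 3 → Perm V) :=
    fun p => ![p.1, p.2.1, p.2.2] with hf
  have hinj : Set.InjOn f (P : Set _) := by
    rintro ⟨a, b, c⟩ _ ⟨a', b', c'⟩ _ h
    have h0 := congrFun h 0
    have h1 := congrFun h 1
    have h2 := congrFun h 2
    simp only [hf, Matrix.cons_val_zero, Matrix.cons_val_one, Matrix.cons_val] at h0 h1 h2
    subst h0; subst h1; subst h2
    rfl
  have hmem : ∀ p ∈ P, f p ∈ Tri V := by
    rintro ⟨a, b, c⟩ hp
    rw [hP, Finset.mem_sigma, Finset.mem_sigma] at hp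
    obtain ⟨ha, hb, hc⟩ := hp
    simp only at ha hb hc
    have ia := hinv _ _ ha
    have ib := hinv _ _ hb
    have ic := hinv _ _ hc
    rw [mem_S] at ha hb hc
    rw [Tri, Finset.mem_filter]
    refine ⟨Finset.mem_univ _, ?_, ?_⟩
    · intro i x
      fin_cases i
      · exact ia x
      · exact ib x
      · exact ic x
    · -- disjointness
      have hab : ∀ x, a x = b x → b x = x := by
        intro x hx
        by_contra h
        apply hb.2.2 x h
        rw [g1, SimpleGraph.fromRel_adj]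
        exact ⟨fun h' => h h'.symm, Or.inl hx⟩
      have hac : ∀ x, a x = c x → c x = x := by
        intro x hx
        by_contra h
        apply hc.2.2 x h
        rw [SimpleGraph.sup_adj]
        left
        rw [g1, SimpleGraph.fromRel_adj]
        exact ⟨fun h' => h h'.symm, Or.inl hx⟩
      have hbc : ∀ x, b x = c x → c x = x := by
        intro x hx
        by_contra h
        apply hc.2.2 x h
        rw [SimpleGraph.sup_adj]
        right
        rw [g1, SimpleGraph.fromRel_adj]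
        exact ⟨fun h' => h h'.symm, Or.inl hx⟩
      intro i j x hij hx
      fin_cases i <;> fin_cases j
      · exact absurd rfl hij
      · have hx' : a x = b x := hx
        change a x = x
        rw [hx']; exact hab x hx'
      · have hx' : a x = c x := hx
        change a x = x
        rw [hx']; exact hac x hx'
      · have hx' : b x = a x := hx
        change b x = x
        exact hab x hx'.symm
      · exact absurd rfl hij
      · have hx' : b x = c x := hx
        change b x = x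
        rw [hx']; exact hbc x hx'
      · have hx' : c x = a x := hx
        change c x = x
        exact hac x hx'.symm
      · have hx' : c x = b x := hx
        change c x = x
        exact hbc x hx'.symm
      · exact absurd rfl hij
  have h1 : ∑ p ∈ P, W ν p.1 * W ν p.2.1 * W ν p.2.2 ≤ ∑ M ∈ Tri V, ∏ v, ν ^ (3 - dM M v) := by
    have e1 : ∑ p ∈ P, W ν p.1 * W ν p.2.1 * W ν p.2.2 =
        ∑ p ∈ P, ∏ v, ν ^ (3 - dM (f p) v) := by
      apply Finset.sum_congr rfl
      intro p _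
      rw [weight_eq]
      rfl
    rw [e1, ← Finset.sum_image (f := fun M => ∏ v, ν ^ (3 - dM M v)) hinj]
    apply Finset.sum_le_sum_of_subset_of_nonneg
    · intro M hM
      rw [Finset.mem_image] at hM
      obtain ⟨p, hp, rfl⟩ := hM
      exact hmem p hp
    · intro M _ _
      exact Finset.prod_nonneg fun v _ => by positivity
  refine le_trans ?_ h1
  rw [hP, Finset.sum_sigma]
  simp_rw [Finset.sum_sigma]
  -- innermost bound
  have hin : ∀ σ ∈ S (fun _ _ => False) (Finset.univ : Finset V),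
      ∀ τ ∈ S (g1 σ).Adj Finset.univ,
      W ν σ * W ν τ * (c * t) ≤
        ∑ ρ ∈ S (g1 σ ⊔ g1 τ).Adj Finset.univ, W ν σ * W ν τ * W ν ρ := by
    intro σ hσ τ hτ
    rw [← Finset.mul_sum]
    apply mul_le_mul_of_nonneg_left _ (mul_nonneg (W_nonneg ν hν _) (W_nonneg ν hν _))
    have := hav V (g1 σ ⊔ g1 τ) (fun v => dg_g2 σ τ (hinv _ _ hσ) (hinv _ _ hτ) v)
    rw [N_univ] at this
    exact this
  have hmid : ∀ σ ∈ S (fun _ _ => False) (Finset.univ : Finset V),
      W ν σ * (c * t) * (c * t) ≤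
        ∑ τ ∈ S (g1 σ).Adj Finset.univ,
          ∑ ρ ∈ S (g1 σ ⊔ g1 τ).Adj Finset.univ, W ν σ * W ν τ * W ν ρ := by
    intro σ hσ
    refine le_trans ?_ (Finset.sum_le_sum (hin σ hσ))
    rw [← Finset.sum_mul, ← Finset.mul_sum]
    apply mul_le_mul_of_nonneg_right _ (by positivity)
    apply mul_le_mul_of_nonneg_left _ (W_nonneg ν hν _)
    have := hav V (g1 σ) (fun v => dg_g1 σ (hinv _ _ hσ) v)
    rw [N_univ] at this
    exact this
  refine le_trans ?_ (Finset.sum_le_sum hmid)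
  rw [← Finset.sum_mul, ← Finset.sum_mul]
  have h3 : ∑ σ ∈ S (fun _ _ => False) (Finset.univ : Finset V), W ν σ = t := by
    rw [← N_univ, N_bot_T, Finset.card_univ]
  rw [h3]
  apply le_of_eq; ring

end Pool.Agent.Results.MP_c4b7b1_co.ClassTwoNotTypical.Inv
end

section
open Equiv MeasureTheory ProbabilityTheory Real

namespace Pool.Agent.Results.MP_c4b7b1_co.ClassTwoNotTypical.Inv

open Pool.Agent.Results.MP_c4b7b1_co.ClassTwoNotTypical.Gauss

variable {V : Type} [Fintype V] [DecidableEq V]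

/-- graphs with prescribed degrees -/
noncomputable def Dg (d : V → ℕ) : Finset (SimpleGraph V) := by
  classical
  exact Finset.univ.filter fun G => ∀ v, gdeg G v = d v

lemma mem_Dg (d : V → ℕ) (G : SimpleGraph V) : G ∈ Dg d ↔ ∀ v, gdeg G v = d v := by
  classical
  simp [Dg]

omit [DecidableEq V] in
lemma gdeg_eq_sum (G : SimpleGraph V) [DecidableRel G.Adj] (v : V) :
    gdeg G v = ∑ w, if G.Adj v w then 1 else 0 := by
  unfold gdeg
  rw [Finset.card_filter]
  apply Finset.sum_congr rfl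
  intro w _
  congr

omit [DecidableEq V] in
lemma gdeg_eq (G : SimpleGraph V) [DecidableRel G.Adj] (v : V) :
    gdeg G v = (Finset.univ.filter fun u => G.Adj v u).card := by
  unfold gdeg
  congr

/-- remove one edge -/
lemma gdeg_delete (G : SimpleGraph V) (v w : V) (h : G.Adj v w) (x : V) :
    gdeg G x = gdeg (G.deleteEdges {s(v, w)}) x + (if x = v ∨ x = w then 1 else 0) := by
  classical
  have hne : v ≠ w := h.ne
  rw [gdeg_eq, gdeg_eq]
  by_cases hx : x = v ∨ x = w
  · rw [if_pos hx]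
    obtain ⟨y, hy, hset⟩ : ∃ y, G.Adj x y ∧ (Finset.univ.filter fun u => (G.deleteEdges {s(v, w)}).Adj x u)
        = (Finset.univ.filter fun u => G.Adj x u).erase y := by
      rcases hx with rfl | rfl
      · refine ⟨w, h, ?_⟩
        ext u
        rw [Finset.mem_filter, Finset.mem_erase, Finset.mem_filter, SimpleGraph.deleteEdges_adj]
        simp only [Finset.mem_univ, true_and, Set.mem_singleton_iff]
        constructor
        · rintro ⟨h1, h2⟩
          exact ⟨fun h3 => h2 (by rw [h3]), h1⟩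
        · rintro ⟨h1, h2⟩
          refine ⟨h2, fun h3 => ?_⟩
          rw [Sym2.eq_iff] at h3
          rcases h3 with ⟨_, h4⟩ | ⟨h4, h5⟩
          · exact h1 h4
          · exact hne h4
      · refine ⟨v, h.symm, ?_⟩
        ext u
        rw [Finset.mem_filter, Finset.mem_erase, Finset.mem_filter, SimpleGraph.deleteEdges_adj]
        simp only [Finset.mem_univ, true_and, Set.mem_singleton_iff]
        constructor
        · rintro ⟨h1, h2⟩
          exact ⟨fun h3 => h2 (by rw [h3]; exact Sym2.eq_swap), h1⟩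
        · rintro ⟨h1, h2⟩
          refine ⟨h2, fun h3 => ?_⟩
          rw [Sym2.eq_iff] at h3
          rcases h3 with ⟨h4, h5⟩ | ⟨h4, h5⟩
          · exact hne h4.symm
          · exact h1 h5
    rw [hset]
    have hm : y ∈ Finset.univ.filter fun u => G.Adj x u :=
      Finset.mem_filter.2 ⟨Finset.mem_univ _, hy⟩
    exact (Finset.card_erase_add_one hm).symm
  · rw [if_neg hx, add_zero]
    congr 1
    ext u
    rw [Finset.mem_filter, Finset.mem_filter, SimpleGraph.deleteEdges_adj]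
    simp only [Finset.mem_univ, true_and, Set.mem_singleton_iff]
    constructor
    · intro h1
      refine ⟨h1, fun h3 => ?_⟩
      rw [Sym2.eq_iff] at h3
      rcases h3 with ⟨h4, h5⟩ | ⟨h4, h5⟩
      · exact hx (Or.inl h4)
      · exact hx (Or.inr h4)
    · rintro ⟨h1, _⟩
      exact h1

/-- degree-sequence bound -/
theorem deg_seq : ∀ (s : ℕ) (d : V → ℕ), ∑ v, d v = s →
    ((Dg d).card : ℝ) * ∏ v, ((d v).factorial : ℝ) ≤ m s := by
  classical
  intro s
  induction s using Nat.strong_induction_on with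
  | _ s ih =>
    intro d hd
    have hfacpos : 0 < ∏ v, ((d v).factorial : ℝ) :=
      Finset.prod_pos fun v _ => by exact_mod_cast Nat.factorial_pos _
    rcases Nat.eq_zero_or_pos s with rfl | hs
    · have hd0 : ∀ v, d v = 0 := by
        intro v
        exact (Finset.sum_eq_zero_iff.1 hd) v (Finset.mem_univ _)
      have hcard : (Dg d).card ≤ 1 := by
        rw [Finset.card_le_one]
        have key : ∀ G ∈ Dg d, ∀ x y, ¬ G.Adj x y := by
          intro G hG x y hxy
          rw [mem_Dg] at hG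
          have h1 := hG x
          rw [hd0 x] at h1
          unfold gdeg at h1
          rw [Finset.card_eq_zero, Finset.filter_eq_empty_iff] at h1
          exact h1 (Finset.mem_univ y) hxy
        intro G hG H hH
        ext x y
        exact ⟨fun h => absurd h (key G hG x y), fun h => absurd h (key H hH x y)⟩
      have h2 : ∏ v, ((d v).factorial : ℝ) = 1 := by
        apply Finset.prod_eq_one
        intro v _
        rw [hd0 v]; simp
      rw [h2, m_zero, mul_one]
      exact_mod_cast hcard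
    · -- positive case
      obtain ⟨v, hv⟩ : ∃ v, d v ≠ 0 := by
        by_contra hcon
        push Not at hcon
        rw [Finset.sum_eq_zero (fun v _ => hcon v)] at hd
        omega
      have hvpos : 0 < d v := Nat.pos_of_ne_zero hv
      -- double count
      have hdc : (((Dg d).card : ℝ)) * d v =
          ∑ w, (((Dg d).filter fun G => G.Adj v w).card : ℝ) := by
        have h1 : ∀ G ∈ Dg d, (d v : ℝ) = ∑ w, if G.Adj v w then (1:ℝ) else 0 := by
          intro G hG
          rw [mem_Dg] at hG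
          rw [← hG v, gdeg_eq_sum]
          push_cast
          rfl
        rw [← nsmul_eq_mul, ← Finset.sum_const, Finset.sum_congr rfl h1, Finset.sum_comm]
        apply Finset.sum_congr rfl
        intro w _
        rw [Finset.card_filter]
        push_cast
        rfl
      -- bound of each term
      have hterm : ∀ w, w ≠ v → (((Dg d).filter fun G => G.Adj v w).card : ℝ) *
          ∏ x, ((d x).factorial : ℝ) ≤ m (s - 2) * (d v * d w) := by
        intro w hwv
        by_cases hw0 : d w = 0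
        · have hemp : (Dg d).filter (fun G => G.Adj v w) = ∅ := by
            rw [Finset.filter_eq_empty_iff]
            intro G hG hadj
            rw [mem_Dg] at hG
            have h1 := hG w
            rw [hw0] at h1
            unfold gdeg at h1
            rw [Finset.card_eq_zero, Finset.filter_eq_empty_iff] at h1
            exact h1 (Finset.mem_univ v) hadj.symm
          rw [hemp, hw0]; simp
        · have hwpos : 0 < d w := Nat.pos_of_ne_zero hw0
          set d' : V → ℕ := fun x => d x - (if x = v ∨ x = w then 1 else 0) with hd'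
          have hsum2 : ∑ x, d x = ∑ x, d' x + 2 := by
            have h1 : ∀ x, d x = d' x + (if x = v ∨ x = w then 1 else 0) := by
              intro x
              rw [hd']
              simp only
              by_cases hx : x = v ∨ x = w
              · rw [if_pos hx]
                have : 0 < d x := by
                  rcases hx with rfl | rfl
                  · exact hvpos
                  · exact hwpos
                omega
              · rw [if_neg hx]; simp
            rw [Finset.sum_congr rfl (fun x _ => h1 x), Finset.sum_add_distrib]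
            congr 1
            rw [← Finset.card_filter]
            have : (Finset.univ.filter fun x => x = v ∨ x = w) = {v, w} := by
              ext x; simp
            rw [this, Finset.card_pair hwv.symm]
          have hs2 : ∑ x, d' x = s - 2 := by omega
          have hlt : s - 2 < s := by omega
          have hIH := ih (s - 2) hlt d' hs2
          have hinj : (((Dg d).filter fun G => G.Adj v w).card) ≤ (Dg d').card := by
            apply Finset.card_le_card_of_injOn (fun G => G.deleteEdges {s(v, w)})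
            · intro G hG
              rw [Finset.mem_coe, Finset.mem_filter, mem_Dg] at hG
              rw [Finset.mem_coe, mem_Dg]
              intro x
              have h1 := gdeg_delete G v w hG.2 x
              rw [hG.1 x] at h1
              rw [hd']
              simp only
              omega
            · intro G hG H hH hGH
              rw [Finset.mem_coe, Finset.mem_filter] at hG hH
              simp only at hGH
              ext x y
              have h1 : (G.deleteEdges {s(v, w)}).Adj x y ↔ (H.deleteEdges {s(v, w)}).Adj x y := by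
                rw [hGH]
              rw [SimpleGraph.deleteEdges_adj, SimpleGraph.deleteEdges_adj] at h1
              by_cases hxy : s(x, y) ∈ ({s(v, w)} : Set (Sym2 V))
              · rw [Set.mem_singleton_iff] at hxy
                have e1 : G.Adj x y := by
                  rw [← SimpleGraph.mem_edgeSet, hxy]; exact hG.2
                have e2 : H.Adj x y := by
                  rw [← SimpleGraph.mem_edgeSet, hxy]; exact hH.2
                exact ⟨fun _ => e2, fun _ => e1⟩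
              · constructor
                · intro h; exact (h1.1 ⟨h, hxy⟩).1
                · intro h; exact (h1.2 ⟨h, hxy⟩).1
          have hprod : ∏ x, ((d x).factorial : ℝ) =
              (d v * d w) * ∏ x, ((d' x).factorial : ℝ) := by
            have h1 : ∀ x, ((d x).factorial : ℝ) =
                (if x = v ∨ x = w then (d x : ℝ) else 1) * ((d' x).factorial : ℝ) := by
              intro x
              rw [hd']
              simp only
              by_cases hx : x = v ∨ x = w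
              · rw [if_pos hx, if_pos hx]
                have : d x ≠ 0 := by
                  rcases hx with rfl | rfl
                  · exact hv
                  · exact hw0
                rw [← Nat.mul_factorial_pred this]
                push_cast; ring
              · rw [if_neg hx, if_neg hx]; simp
            rw [Finset.prod_congr rfl (fun x _ => h1 x), Finset.prod_mul_distrib]
            congr 1
            rw [← Finset.prod_filter]
            have : (Finset.univ.filter fun x => x = v ∨ x = w) = {v, w} := by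
              ext x; simp
            rw [this, Finset.prod_pair hwv.symm]
          rw [hprod]
          have h3 : (((Dg d).filter fun G => G.Adj v w).card : ℝ) ≤ (Dg d').card := by
            exact_mod_cast hinj
          have h4 : 0 ≤ ∏ x, ((d' x).factorial : ℝ) := Finset.prod_nonneg fun x _ => by positivity
          calc (((Dg d).filter fun G => G.Adj v w).card : ℝ) *
                ((d v * d w) * ∏ x, ((d' x).factorial : ℝ))
              ≤ ((Dg d').card : ℝ) * ((d v * d w) * ∏ x, ((d' x).factorial : ℝ)) := by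
                apply mul_le_mul_of_nonneg_right h3 (by positivity)
            _ = (((Dg d').card : ℝ) * ∏ x, ((d' x).factorial : ℝ)) * (d v * d w) := by ring
            _ ≤ m (s - 2) * (d v * d w) := by
                apply mul_le_mul_of_nonneg_right hIH (by positivity)
      have hself : (((Dg d).filter fun G => G.Adj v v).card : ℝ) = 0 := by
        have : (Dg d).filter (fun G => G.Adj v v) = ∅ := by
          rw [Finset.filter_eq_empty_iff]
          intro G _ h
          exact G.loopless.irrefl v h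
        rw [this]; simp
      have hsumd : ∑ w ∈ Finset.univ.erase v, (d w : ℝ) = s - d v := by
        have h1 := Finset.add_sum_erase Finset.univ (fun w => (d w : ℝ)) (Finset.mem_univ v)
        have h2 : ∑ w, (d w : ℝ) = s := by rw [← hd]; push_cast; rfl
        rw [h2] at h1
        linarith
      have htot : (((Dg d).card : ℝ)) * d v * ∏ x, ((d x).factorial : ℝ) ≤
          m (s - 2) * (d v * (s - d v)) := by
        rw [hdc, ← Finset.add_sum_erase Finset.univ _ (Finset.mem_univ v), hself, zero_add,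
          Finset.sum_mul]
        refine (Finset.sum_le_sum fun w hw => hterm w (Finset.ne_of_mem_erase hw)).trans ?_
        rw [← Finset.mul_sum, ← Finset.mul_sum, hsumd]
      have hdvR : (0:ℝ) < d v := by exact_mod_cast hvpos
      have hfin : ((Dg d).card : ℝ) * ∏ x, ((d x).factorial : ℝ) ≤ m (s - 2) * (s - d v) := by
        have : (d v : ℝ) * (((Dg d).card : ℝ) * ∏ x, ((d x).factorial : ℝ)) ≤
            (d v : ℝ) * (m (s - 2) * (s - d v)) := by
          calc (d v : ℝ) * (((Dg d).card : ℝ) * ∏ x, ((d x).factorial : ℝ))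
              = (((Dg d).card : ℝ)) * d v * ∏ x, ((d x).factorial : ℝ) := by ring
            _ ≤ m (s - 2) * (d v * (s - d v)) := htot
            _ = _ := by ring
        exact le_of_mul_le_mul_left this hdvR
      refine hfin.trans ?_
      rcases Nat.lt_or_ge s 2 with h2 | h2
      · have hs1 : s = 1 := by omega
        have hdv1 : d v ≤ s := by
          rw [← hd]
          exact Finset.single_le_sum (fun _ _ => Nat.zero_le _) (Finset.mem_univ v)
        have : d v = 1 := by omega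
        rw [hs1, this, m_one]; simp
      · obtain ⟨j, rfl⟩ : ∃ j, s = j + 2 := ⟨s - 2, by omega⟩
        have hdv1 : (1:ℝ) ≤ d v := by exact_mod_cast hvpos
        have e1 : j + 2 - 2 = j := by omega
        rw [e1, m_rec]
        push_cast
        nlinarith [m_nonneg j]

/-- graphs of maximum degree at most three -/
noncomputable def G3 (V : Type) [Fintype V] [DecidableEq V] : Finset (SimpleGraph V) := by
  classical
  exact Finset.univ.filter fun G => ∀ v, gdeg G v ≤ 3

lemma mem_G3 (G : SimpleGraph V) : G ∈ G3 V ↔ ∀ v, gdeg G v ≤ 3 := by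
  classical
  simp [G3]

theorem graph_upper (l : ℝ) (hl : 0 < l) :
    ∑ G ∈ G3 V, gw l G ≤ ∫ z, (P3 l z) ^ Fintype.card V ∂gam := by
  classical
  set F : SimpleGraph V → (V → Fin 4) := fun G v => ⟨min (gdeg G v) 3, by omega⟩ with hF
  have h1 : ∑ G ∈ G3 V, gw l G =
      ∑ φ : V → Fin 4, ∑ G ∈ (G3 V).filter (fun G => F G = φ), gw l G := by
    rw [Finset.sum_fiberwise]
  have h2 : ∀ φ : V → Fin 4, (G3 V).filter (fun G => F G = φ) = Dg (fun v => (φ v : ℕ)) := by
    intro φ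
    ext G
    rw [Finset.mem_filter, G3, Finset.mem_filter, mem_Dg]
    constructor
    · rintro ⟨⟨_, h1⟩, h2⟩ v
      rw [← h2]
      simp only [hF]
      have := h1 v
      omega
    · intro h
      refine ⟨⟨Finset.mem_univ _, fun v => ?_⟩, ?_⟩
      · rw [h v]; have := (φ v).2; omega
      · funext v
        apply Fin.ext
        simp only [hF]
        have := h v
        have := (φ v).2
        omega
  have h3 : ∀ φ : V → Fin 4, ∑ G ∈ Dg (fun v => (φ v : ℕ)), gw l G ≤
      (∏ v, (l ^ (3 - (φ v : ℕ)) / ((φ v : ℕ).factorial : ℝ))) * m (∑ v, (φ v : ℕ)) := by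
    intro φ
    have e1 : ∀ G ∈ Dg (fun v => (φ v : ℕ)), gw l G = ∏ v, l ^ (3 - (φ v : ℕ)) := by
      intro G hG
      rw [mem_Dg] at hG
      unfold gw
      exact Finset.prod_congr rfl fun v _ => by rw [hG v]
    rw [Finset.sum_congr rfl e1, Finset.sum_const, nsmul_eq_mul, Finset.prod_div_distrib]
    have e2 := deg_seq _ (fun v => (φ v : ℕ)) rfl
    have hfacpos : 0 < ∏ v, (((φ v : ℕ)).factorial : ℝ) :=
      Finset.prod_pos fun v _ => by exact_mod_cast Nat.factorial_pos _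
    have hlpos : 0 < ∏ v, l ^ (3 - (φ v : ℕ)) := Finset.prod_pos fun v _ => by positivity
    rw [div_mul_eq_mul_div, le_div_iff₀ hfacpos]
    calc ((Dg fun v => (φ v : ℕ)).card : ℝ) * (∏ v, l ^ (3 - (φ v : ℕ))) *
          ∏ v, (((φ v : ℕ)).factorial : ℝ)
        = (∏ v, l ^ (3 - (φ v : ℕ))) * (((Dg fun v => (φ v : ℕ)).card : ℝ) *
          ∏ v, (((φ v : ℕ)).factorial : ℝ)) := by ring
      _ ≤ _ := mul_le_mul_of_nonneg_left e2 hlpos.le
  rw [h1]
  simp_rw [h2]
  refine (Finset.sum_le_sum fun φ _ => h3 φ).trans (le_of_eq ?_)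
  have h4 : ∀ z : ℝ, (P3 l z) ^ Fintype.card V =
      ∑ φ : V → Fin 4, (∏ v, (l ^ (3 - (φ v : ℕ)) / ((φ v : ℕ).factorial : ℝ))) *
        z ^ (∑ v, (φ v : ℕ)) := by
    intro z
    have e1 : P3 l z = ∑ k : Fin 4, (l ^ (3 - (k : ℕ)) / ((k : ℕ).factorial : ℝ)) * z ^ (k : ℕ) := by
      rw [Fin.sum_univ_four]
      unfold P3
      norm_num [Nat.factorial]
      ring
    rw [e1, ← Finset.card_univ, ← Finset.prod_const, Finset.prod_univ_sum,
      Fintype.piFinset_univ]
    apply Finset.sum_congr rfl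
    intro φ _
    rw [Finset.prod_mul_distrib, Finset.prod_pow_eq_pow_sum]
  simp_rw [h4]
  rw [integral_finsetSum]
  · apply Finset.sum_congr rfl
    intro φ _
    rw [integral_const_mul, m]
  · intro φ _
    exact (integrable_pow _).const_mul _

end Pool.Agent.Results.MP_c4b7b1_co.ClassTwoNotTypical.Inv
end

section
open Equiv MeasureTheory ProbabilityTheory Real Filter

namespace Pool.Agent.Results.MP_c4b7b1_co.ClassTwoNotTypical.Inv

open Pool.Agent.Results.MP_c4b7b1_co.ClassTwoNotTypical.Gauss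

/-- weighted form: 3-edge-colourable graphs carry a positive proportion of the weight -/
theorem positive_proportion (l : ℝ) (hl : 0 < l) : ∃ κ : ℝ, 0 < κ ∧ ∃ N0 : ℕ, ∀ n : ℕ, N0 ≤ n →
    κ * ∑ G ∈ G3 (Fin n), gw l G ≤ ∑ G ∈ Cls (Fin n), gw l G := by
  set ν : ℝ := l / √3 with hν
  set μ : ℝ := l / 3 with hμ
  have h3 : (0:ℝ) < √3 := Real.sqrt_pos.2 (by norm_num)
  have h3sq : (√3) ^ 2 = 3 := Real.sq_sqrt (by norm_num)
  have hνpos : 0 < ν := by positivity
  have hμpos : 0 < μ := by positivity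
  have hνμ : ν ^ 2 = l * μ := by rw [hν, hμ, div_pow, h3sq]; ring
  obtain ⟨KA, hKA, hA⟩ := upper_one l hl
  obtain ⟨KC, hKC, hC⟩ := upper_nine μ hμpos
  obtain ⟨KT, hKT, NT, hT⟩ := lower_one ν hνpos
  obtain ⟨c, hc, hB⟩ := first_moment ν hνpos
  refine ⟨c ^ 2 * KT ^ 6 / (KA * KC), by positivity, NT + 1, ?_⟩
  intro n hn
  have hn0 : 0 < n := by omega
  have hnR : (0:ℝ) < n := by exact_mod_cast hn0
  have hA0 := graph_upper (V := Fin n) l hl
  rw [Fintype.card_fin] at hA0
  have hA' := hA0.trans (hA n hn0)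
  have hC0 := second_moment (V := Fin n) μ hμpos
  rw [Fintype.card_fin] at hC0
  have hC' := hC0.trans (hC n hn0)
  have hT' := hT n (by omega)
  have hB' := hB (Fin n)
  rw [Fintype.card_fin] at hB'
  have hCS := cauchy (V := Fin n) l μ ν hl hμpos hνpos hνμ
  set A := ∑ G ∈ G3 (Fin n), gw l G with hAdef
  set Z := ∑ G ∈ Cls (Fin n), gw l G with hZdef
  set B := ∑ M ∈ Tri (Fin n), ∏ v, ν ^ (3 - dM M v) with hBdef
  set SP := ∑ p ∈ Prs (Fin n), ∏ v, μ ^ (3 - dM p.1 v) with hSPdef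
  set XA := (√(3 * n) ^ 3 / 6) ^ n * rexp (-(3 * n) / 2) * rexp (l * √(3 * n)) with hXA
  set XC := (6 * √(n / 3 : ℝ) ^ 3) ^ n * rexp (-(3 * n) / 2) * rexp (9 * μ * √(n / 3 : ℝ)) with hXC
  set Y := √(n:ℝ) ^ n * rexp (-(n:ℝ) / 2) * rexp (ν * √n) with hY
  have hXApos : 0 < XA := by
    have : 0 < √(3 * (n:ℝ)) := Real.sqrt_pos.2 (by positivity)
    positivity
  have hXCpos : 0 < XC := by
    have : 0 < √((n:ℝ) / 3) := Real.sqrt_pos.2 (by positivity)
    positivity
  have hYpos : 0 < Y := by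
    have : 0 < √(n:ℝ) := Real.sqrt_pos.2 hnR
    positivity
  have hprod : XA * XC = Y ^ 6 := by
    have e1 : √(3 * (n:ℝ)) = √3 * √n := Real.sqrt_mul (by norm_num) _
    have e2 : √((n:ℝ) / 3) = √n / √3 := Real.sqrt_div hnR.le _
    rw [hXA, hXC, hY, e1, e2, hμ, hν]
    have e3 : ((√3 * √(n:ℝ)) ^ 3 / 6) ^ n * (6 * (√(n:ℝ) / √3) ^ 3) ^ n = (√(n:ℝ) ^ n) ^ 6 := by
      rw [← mul_pow, ← pow_mul, mul_comm n 6, pow_mul]
      congr 1
      field_simp
    have e4 : rexp (-(3 * (n:ℝ)) / 2) * rexp (-(3 * (n:ℝ)) / 2) = (rexp (-(n:ℝ) / 2)) ^ 6 := by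
      rw [← exp_add, ← Real.exp_nat_mul]
      congr 1
      push_cast; ring
    have e5 : rexp (l * (√3 * √(n:ℝ))) * rexp (9 * (l / 3) * (√(n:ℝ) / √3)) =
        (rexp (l / √3 * √(n:ℝ))) ^ 6 := by
      rw [← exp_add, ← Real.exp_nat_mul]
      congr 1
      field_simp
      rw [h3sq]
      push_cast; ring
    calc _ = (((√3 * √(n:ℝ)) ^ 3 / 6) ^ n * (6 * (√(n:ℝ) / √3) ^ 3) ^ n) *
          (rexp (-(3 * (n:ℝ)) / 2) * rexp (-(3 * (n:ℝ)) / 2)) *
          (rexp (l * (√3 * √(n:ℝ))) * rexp (9 * (l / 3) * (√(n:ℝ) / √3))) := by ring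
      _ = _ := by rw [e3, e4, e5]; ring
  have hT'' : KT * Y ≤ T ν n := hT'
  have hTpow : (KT * Y) ^ 3 ≤ (T ν n) ^ 3 := pow_le_pow_left₀ (by positivity) hT'' 3
  have hBlow : c * (KT * Y) ^ 3 ≤ B := (mul_le_mul_of_nonneg_left hTpow hc.le).trans hB'
  have hB2 : (c * (KT * Y) ^ 3) ^ 2 ≤ B ^ 2 := pow_le_pow_left₀ (by positivity) hBlow 2
  have hZ0 : 0 ≤ Z := Finset.sum_nonneg fun G _ => Finset.prod_nonneg fun v _ => by positivity
  have h1 : (c * (KT * Y) ^ 3) ^ 2 ≤ Z * (KC * XC) :=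
    hB2.trans (hCS.trans (mul_le_mul_of_nonneg_left hC' hZ0))
  have h2 : (c * (KT * Y) ^ 3) ^ 2 = c ^ 2 * KT ^ 6 * (XA * XC) := by rw [hprod]; ring
  rw [h2] at h1
  have h4 : c ^ 2 * KT ^ 6 * XA ≤ Z * KC := by
    have : (c ^ 2 * KT ^ 6 * XA) * XC ≤ (Z * KC) * XC := by
      calc (c ^ 2 * KT ^ 6 * XA) * XC = c ^ 2 * KT ^ 6 * (XA * XC) := by ring
        _ ≤ Z * (KC * XC) := h1
        _ = _ := by ring
    exact le_of_mul_le_mul_right this hXCpos
  rw [div_mul_eq_mul_div, div_le_iff₀ (by positivity)]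
  calc c ^ 2 * KT ^ 6 * A ≤ c ^ 2 * KT ^ 6 * (KA * XA) :=
        mul_le_mul_of_nonneg_left hA' (by positivity)
    _ = KA * (c ^ 2 * KT ^ 6 * XA) := by ring
    _ ≤ KA * (Z * KC) := mul_le_mul_of_nonneg_left h4 hKA.le
    _ = _ := by ring

/-- the union of three disjoint matchings is 3-edge-colourable -/
lemma gr_colorable {V : Type} [Fintype V] [DecidableEq V] (M : Fin 3 → Perm V)
    (hM : M ∈ Tri V) : (gr M).lineGraph.Colorable 3 := by
  classical
  rw [Tri, Finset.mem_filter] at hM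
  obtain ⟨_, h1, h2⟩ := hM
  have hex : ∀ e : (gr M).edgeSet, ∃ i : Fin 3, ∀ z ∈ (e : Sym2 V), s(z, M i z) = (e : Sym2 V) := by
    rintro ⟨e, he⟩
    induction e using Sym2.ind with
    | _ x y =>
      rw [SimpleGraph.mem_edgeSet, gr_adj M h1] at he
      obtain ⟨hne, i, hi⟩ := he
      refine ⟨i, ?_⟩
      intro z hz
      simp only [Sym2.mem_iff] at hz ⊢
      rcases hz with rfl | rfl
      · rw [hi]
      · rw [← hi, h1]; exact Sym2.eq_swap
  choose col hcol using hex
  refine ⟨SimpleGraph.Coloring.mk col ?_⟩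
  intro e e' hadj heq
  rw [SimpleGraph.lineGraph_adj_iff_exists] at hadj
  obtain ⟨hne, z, hz, hz'⟩ := hadj
  apply hne
  apply Subtype.ext
  rw [← hcol e z hz, ← hcol e' z hz', heq]

end Pool.Agent.Results.MP_c4b7b1_co.ClassTwoNotTypical.Inv
end

section
open Equiv MeasureTheory ProbabilityTheory Real Filter

namespace Pool.Agent.Results.MP_c4b7b1_co.ClassTwoNotTypical

open Pool.Agent.Results.MP_c4b7b1_co.ClassTwoNotTypical.Gauss Pool.Agent.Results.MP_c4b7b1_co.ClassTwoNotTypical.Inv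

/-- The graphs with vertex set `Fin n` and maximum degree at most `Δ`. -/
def boundedDegree (Δ n : ℕ) : Set (SimpleGraph (Fin n)) :=
  {G | ∀ v : Fin n, (G.neighborSet v).ncard ≤ Δ}

/-- The chromatic index: the chromatic number of the line graph. -/
noncomputable def chromaticIndex {V : Type} (G : SimpleGraph V) : ℕ∞ :=
  G.lineGraph.chromaticNumber

/-- The graphs of `boundedDegree Δ n` whose chromatic index is `Δ + 1`. -/
def classTwo (Δ n : ℕ) : Set (SimpleGraph (Fin n)) :=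
  {G | G ∈ boundedDegree Δ n ∧ chromaticIndex G = (Δ : ℕ∞) + 1}

/-- The proportion of graphs of chromatic index `Δ + 1`. -/
noncomputable def ratio (Δ n : ℕ) : ℝ :=
  ((classTwo Δ n).ncard : ℝ) / ((boundedDegree Δ n).ncard : ℝ)

lemma gdeg_ncard {V : Type} [Fintype V] [DecidableEq V] (G : SimpleGraph V) (v : V) :
    gdeg G v = (G.neighborSet v).ncard := by
  classical
  have h : G.neighborSet v = ((Finset.univ.filter fun u => G.Adj v u : Finset V) : Set V) := by
    ext u; simp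
  rw [h, Set.ncard_coe_finset, gdeg_eq]

lemma bounded_eq (n : ℕ) : boundedDegree 3 n = (G3 (Fin n) : Set (SimpleGraph (Fin n))) := by
  classical
  ext G
  rw [Finset.mem_coe, mem_G3]
  simp only [boundedDegree, Set.mem_ofPred_eq, gdeg_ncard]

lemma Cls_subset (n : ℕ) : Cls (Fin n) ⊆ G3 (Fin n) := by
  classical
  intro G hG
  rw [Cls, Finset.mem_image] at hG
  obtain ⟨M, hM, rfl⟩ := hG
  rw [mem_G3]
  exact fun v => by rw [dM_eq M hM]; exact dM_le M v

lemma classTwo_disj (n : ℕ) (G : SimpleGraph (Fin n)) (hG : G ∈ Cls (Fin n)) :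
    G ∉ classTwo 3 n := by
  classical
  rw [Cls, Finset.mem_image] at hG
  obtain ⟨M, hM, rfl⟩ := hG
  rintro ⟨_, h⟩
  have h1 : chromaticIndex (gr M) ≤ 3 := (gr_colorable M hM).chromaticNumber_le
  rw [h] at h1
  have : ((3:ℕ) : ℕ∞) + 1 ≤ 3 := h1
  norm_num at this

theorem main : ∃ c : ℝ, c < 1 ∧ ∀ᶠ n : ℕ in atTop, ratio 3 n ≤ c := by
  classical
  obtain ⟨κ, hκ, N0, h⟩ := positive_proportion 1 one_pos
  refine ⟨1 - κ, by linarith, ?_⟩
  filter_upwards [eventually_ge_atTop N0] with n hn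
  have h1 := h n hn
  have hgw : ∀ G : SimpleGraph (Fin n), gw 1 G = 1 := by
    intro G; unfold gw; simp
  simp only [hgw, Finset.sum_const, nsmul_eq_mul, mul_one] at h1
  have hsub : classTwo 3 n ⊆ ((G3 (Fin n) \ Cls (Fin n) : Finset _) : Set (SimpleGraph (Fin n))) := by
    intro G hG
    rw [Finset.mem_coe, Finset.mem_sdiff]
    refine ⟨?_, fun hC => classTwo_disj n G hC hG⟩
    have := hG.1
    rw [bounded_eq] at this
    exact this
  have hcard : (classTwo 3 n).ncard ≤ (G3 (Fin n)).card - (Cls (Fin n)).card := by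
    have h2 := Set.ncard_le_ncard hsub (Finset.finite_toSet _)
    rw [Set.ncard_coe_finset, Finset.card_sdiff_of_subset (Cls_subset n)] at h2
    exact h2
  have hle := Finset.card_le_card (Cls_subset n)
  have hpos : 0 < (G3 (Fin n)).card := by
    rw [Finset.card_pos]
    refine ⟨⊥, ?_⟩
    rw [mem_G3]
    intro v
    rw [gdeg_eq]; simp
  have hposR : (0:ℝ) < (G3 (Fin n)).card := by exact_mod_cast hpos
  unfold ratio
  rw [bounded_eq, Set.ncard_coe_finset, div_le_iff₀ hposR]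
  have h3 : ((classTwo 3 n).ncard : ℝ) ≤ (G3 (Fin n)).card - (Cls (Fin n)).card := by
    have : ((classTwo 3 n).ncard : ℝ) ≤ (((G3 (Fin n)).card - (Cls (Fin n)).card : ℕ) : ℝ) := by
      exact_mod_cast hcard
    rwa [Nat.cast_sub hle] at this
  linarith

lemma ratio_nonneg (Δ n : ℕ) : 0 ≤ ratio Δ n := by unfold ratio; positivity

/-- The proportion stays bounded away from one for `Δ = 3`. -/
theorem result : ∃ c : ℝ, c < 1 ∧ ∀ᶠ n : ℕ in atTop, ratio 3 n ≤ c := main

/-- The negated form of the question, witnessed by `Δ = 3`. -/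
theorem negated_form : ∃ Δ : ℕ, 3 ≤ Δ ∧ liminf (ratio Δ) atTop < 1 := by
  obtain ⟨c, hc, h⟩ := main
  refine ⟨3, le_rfl, lt_of_le_of_lt ?_ hc⟩
  exact liminf_le_of_frequently_le h.frequently
    (isBoundedUnder_of ⟨0, fun n => ratio_nonneg 3 n⟩)

end Pool.Agent.Results.MP_c4b7b1_co.ClassTwoNotTypical
end
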